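import Pool.Agent.H92.MU.Cov

/-!
Equivalence of vanishing with slow growth.
-/

set_option autoImplicit false
set_option linter.unusedSectionVars false
set_option linter.style.haveILetI false

namespace Pool.Agent.H92.MU

open CategoryTheory Module

variable {F k G : Type} [Field F] [Field k] [Group G] [TopologicalSpace G]

/-- For every `c` there are `s` and an open subgroup `V` of `U`, normal in `U` with `U/V` abelian
of exponent dividing `p ^ s`, such that `p ^ (s c) dim H2(F[G/V] ⊗ W) < [U : V]`. -/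
def Slow (T : Theory F k G) (p : ℕ) (W : Rep.{0} F G) (U : Subgroup G) : Prop :=
  ∀ c : ℕ, ∃ (s : ℕ) (V : Subgroup G), IsOpen (V : Set G) ∧ AbExp (p ^ s) V U ∧
    (p ^ s) ^ c * finrank k (T.H2.obj (ind V W)) < V.relIndex U

variable [IsTopologicalGroup G] [CompactSpace G]

namespace Theory

variable (T : Theory F k G)

/-- **Linear growth.** -/
theorem two_sided {p s : ℕ} [Fact p.Prime] [CharP k p] {W : Rep.{0} F G} (hW : IsFin W)
    {U V : Subgroup G} (hU : IsOpen (U : Set G)) (hV : IsOpen (V : Set G))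
    (h : AbExp (p ^ s) V U) (hne : 0 < finrank k (T.H2.obj (ind U W))) :
    V.relIndex U ≤ (p ^ s) ^ (finrank k (T.H1 (ind U W))) * finrank k (T.H2.obj (ind V W)) ∧
      finrank k (T.H2.obj (ind V W)) ≤ V.relIndex U * finrank k (T.H2.obj (ind U W)) := by
  refine ⟨T.lower hW hU hV h ?_, T.upper hW hU hV h.pnorm⟩
  intro h0
  rw [(T.finrank_zero (isFin_ind hU hW)).2 h0] at hne
  exact lt_irrefl _ hne

theorem vanish_of_slow {p : ℕ} [Fact p.Prime] [CharP k p] {W : Rep.{0} F G} (hW : IsFin W)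
    {U : Subgroup G} (hU : IsOpen (U : Set G)) (h : Slow T p W U) :
    Subsingleton (T.H2.obj (ind U W)) := by
  by_contra hne
  obtain ⟨s, V, hV, hAb, hlt⟩ := h (finrank k (T.H1 (ind U W)))
  exact absurd (T.lower hW hU hV hAb hne) (not_le.2 hlt)

theorem slow_of_vanish {p : ℕ} {W : Rep.{0} F G} (hW : IsFin W)
    {U : Subgroup G} (hU : IsOpen (U : Set G)) (h : Subsingleton (T.H2.obj (ind U W))) :
    Slow T p W U := by
  refine fun c => ⟨0, U, hU, ⟨le_rfl, fun a ha b hb => ?_, fun a ha => pow_mem ha _⟩, ?_⟩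
  · exact mul_mem (mul_mem (mul_mem ha hb) (inv_mem ha)) (inv_mem hb)
  · rw [(T.finrank_zero (isFin_ind hU hW)).2 h, mul_zero, Subgroup.relIndex_self]
    exact one_pos

/-- **All finite representations.** -/
theorem all_iff_slow {p : ℕ} [Fact p.Prime] [CharP k p] {U₀ : Subgroup G}
    (hU₀ : IsOpen (U₀ : Set G)) [U₀.Normal] (hp₀ : ¬ p ∣ U₀.index) :
    (∀ A : Rep.{0} F G, IsFin A → Subsingleton (T.H2.obj A)) ↔
      ∀ U : Subgroup G, IsOpen (U : Set G) → U ≤ U₀ → ¬ p ∣ U.index → Slow T p (one F G) U := by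
  constructor
  · intro h U hU _ _
    exact T.slow_of_vanish isFin_one hU (h _ (isFin_ind hU isFin_one))
  · intro h
    rw [T.all_iff hU₀ hp₀]
    intro U hU hU0 hp
    exact T.small_of_vanish isFin_one hU (T.vanish_of_slow isFin_one hU (h U hU hU0 hp))

/-- **Fixed representation.** -/
theorem fixed_iff_slow {p : ℕ} [Fact p.Prime] [CharP k p] {W : Rep.{0} F G} (hW : IsFin W)
    (D : Set G) :
    (∀ V : Subgroup G, IsOpen (V : Set G) → D ⊆ V → (∀ a b : G, a * b * a⁻¹ * b⁻¹ ∈ V) →
      Subsingleton (T.H2.obj (ind V W))) ↔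
    ∀ U : Subgroup G, IsOpen (U : Set G) → D ⊆ U → (∀ a b : G, a * b * a⁻¹ * b⁻¹ ∈ U) →
      ¬ p ∣ U.index → Slow T p W U := by
  constructor
  · intro h U hU hD hab _
    exact T.slow_of_vanish hW hU (h U hU hD hab)
  · intro h
    rw [T.fixed_iff (p := p) hW]
    intro U hU hD hab hp
    exact T.small_of_vanish hW hU (T.vanish_of_slow hW hU (h U hU hD hab hp))

end Theory

end Pool.Agent.H92.MU
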