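import Mathlib

/-!
Linear algebra for modules over the group algebra of a finite commutative group of exponent
dividing `q = p ^ s` over a field of characteristic `p`.
-/

set_option autoImplicit false

namespace Pool.Agent.H92.MU

open Module

section nil

variable {k : Type*} [Field k]

theorem finrank_ker_pow_le {M : Type*} [AddCommGroup M] [Module k M] [FiniteDimensional k M]
    (T : M →ₗ[k] M) (i : ℕ) :
    finrank k (LinearMap.ker (T ^ i)) ≤ i * finrank k (LinearMap.ker T) := by
  induction i with
  | zero =>
    have : LinearMap.ker (T ^ 0) = ⊥ := by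
      rw [pow_zero]
      exact LinearMap.ker_id
    rw [this]
    simp
  | succ i ih =>
    let f : LinearMap.ker (T ^ (i + 1)) →ₗ[k] M := (T ^ i).domRestrict _
    have h1 := LinearMap.finrank_range_add_finrank_ker f
    have h2 : finrank k (LinearMap.range f) ≤ finrank k (LinearMap.ker T) := by
      apply Submodule.finrank_mono
      rintro _ ⟨⟨x, hx⟩, rfl⟩
      rw [LinearMap.mem_ker] at hx ⊢
      rw [pow_succ'] at hx
      exact hx
    have h3 : finrank k (LinearMap.ker f) ≤ finrank k (LinearMap.ker (T ^ i)) := by
      have : ∀ x : LinearMap.ker f, (x : LinearMap.ker (T ^ (i + 1))).1 ∈ LinearMap.ker (T ^ i) := by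
        intro x
        have := x.2
        rw [LinearMap.mem_ker] at this ⊢
        exact this
      let g : LinearMap.ker f →ₗ[k] LinearMap.ker (T ^ i) :=
        LinearMap.codRestrict _ ((LinearMap.ker (T ^ (i + 1))).subtype ∘ₗ
          (LinearMap.ker f).subtype) this
      apply LinearMap.finrank_le_finrank_of_injective (f := g)
      intro x y hxy
      have := congrArg Subtype.val hxy
      exact Subtype.ext (Subtype.ext this)
    rw [add_mul, one_mul]
    omega

theorem finrank_le_of_pow {M : Type*} [AddCommGroup M] [Module k M] [FiniteDimensional k M]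
    (T : M →ₗ[k] M) (q : ℕ) (hT : T ^ q = 0) :
    finrank k M ≤ q * finrank k (M ⧸ LinearMap.range T) := by
  have h1 := finrank_ker_pow_le T q
  have h2 : LinearMap.ker (T ^ q) = ⊤ := by rw [hT]; exact LinearMap.ker_zero
  rw [h2, finrank_top] at h1
  have h3 := LinearMap.finrank_range_add_finrank_ker T
  have h4 := Submodule.finrank_quotient_add_finrank (LinearMap.range T)
  have h5 : finrank k (M ⧸ LinearMap.range T) = finrank k (LinearMap.ker T) := by omega
  rw [h5]
  exact h1

end nil

section chain

universe u

variable {k : Type*} [Field k] {R : Type*} [CommRing R] [Algebra k R]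

theorem finrank_le_mul (q : ℕ) : ∀ (h : ℕ) (r : Fin h → R) (_ : ∀ i, r i ^ q = 0)
    (M L : Type u) [AddCommGroup M] [Module R M] [Module k M] [IsScalarTower k R M]
    [FiniteDimensional k M] [AddCommGroup L] [Module R L] [Module k L] [IsScalarTower k R L]
    [FiniteDimensional k L] (g : M →ₗ[R] L) (_ : Function.Surjective g)
    (_ : LinearMap.ker g ≤ Ideal.span (Set.range r) • (⊤ : Submodule R M)),
    finrank k M ≤ q ^ h * finrank k L := by
  intro h
  induction h with
  | zero =>
    intro r hr M L _ _ _ _ _ _ _ _ _ _ g _ hg
    have h0 : Set.range r = ∅ := by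
      ext x
      simp
    rw [h0, Ideal.span_empty, Submodule.bot_smul, le_bot_iff, LinearMap.ker_eq_bot] at hg
    rw [pow_zero, one_mul]
    exact LinearMap.finrank_le_finrank_of_injective (f := g.restrictScalars k) hg
  | succ h ih =>
    intro r hr M L _ _ _ _ _ _ _ _ _ _ g hgs hg
    let TM : M →ₗ[R] M := LinearMap.lsmul R M (r 0)
    let TL : L →ₗ[R] L := LinearMap.lsmul R L (r 0)
    have hmap : LinearMap.range TM ≤ (LinearMap.range TL).comap g := by
      rintro _ ⟨x, rfl⟩
      exact ⟨g x, by simp [TM, TL]⟩
    let g1 : (M ⧸ LinearMap.range TM) →ₗ[R] (L ⧸ LinearMap.range TL) :=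
      Submodule.mapQ _ _ g hmap
    have hg1 : Function.Surjective g1 := by
      intro y
      obtain ⟨l, rfl⟩ := Submodule.Quotient.mk_surjective _ y
      obtain ⟨m, rfl⟩ := hgs l
      exact ⟨Submodule.Quotient.mk m, rfl⟩
    have h1 : finrank k M ≤ q * finrank k (M ⧸ LinearMap.range TM) := by
      have e := finrank_le_of_pow (k := k) (TM.restrictScalars k) q (by
        ext x
        have : ∀ n, ((TM.restrictScalars k) ^ n) x = (r 0) ^ n • x := by
          intro n
          induction n with
          | zero => simp
          | succ n ihn =>
            rw [pow_succ', Module.End.mul_apply, ihn, pow_succ', mul_smul]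
            rfl
        rw [this q, hr 0, zero_smul]
        rfl)
      have e2 : finrank k (M ⧸ LinearMap.range (TM.restrictScalars k)) =
          finrank k (M ⧸ LinearMap.range TM) := by
        apply LinearEquiv.finrank_eq
        exact Submodule.Quotient.restrictScalarsEquiv k (LinearMap.range TM)
      rw [← e2]
      exact e
    have key : ∀ z ∈ Ideal.span (Set.range r) • (⊤ : Submodule R M),
        Submodule.Quotient.mk (p := LinearMap.range TM) z ∈
          Ideal.span (Set.range fun i : Fin h => r i.succ) •
            (⊤ : Submodule R (M ⧸ LinearMap.range TM)) := by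
      intro z hz
      induction hz using Submodule.smul_induction_on' with
      | smul a ha n hn =>
        clear hn
        induction ha using Submodule.span_induction with
        | mem a ha =>
          obtain ⟨i, rfl⟩ := ha
          refine Fin.cases ?_ (fun j => ?_) i
          · have : Submodule.Quotient.mk (p := LinearMap.range TM) (r 0 • n) = 0 := by
              rw [Submodule.Quotient.mk_eq_zero]
              exact ⟨n, rfl⟩
            rw [this]
            exact Submodule.zero_mem _
          · rw [Submodule.Quotient.mk_smul]
            exact Submodule.smul_mem_smul (Ideal.subset_span ⟨j, rfl⟩) Submodule.mem_top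
        | zero =>
          rw [zero_smul]
          exact Submodule.zero_mem _
        | add a b _ _ ha hb =>
          rw [add_smul]
          exact Submodule.add_mem _ ha hb
        | smul c a _ ha =>
          rw [smul_eq_mul, mul_smul, Submodule.Quotient.mk_smul]
          exact Submodule.smul_mem _ _ ha
      | add a _ b _ ha hb =>
        exact Submodule.add_mem _ ha hb
    have h2 : finrank k (M ⧸ LinearMap.range TM) ≤ q ^ h * finrank k (L ⧸ LinearMap.range TL) := by
      apply ih (fun i => r i.succ) (fun i => hr i.succ) _ _ g1 hg1
      intro y hy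
      obtain ⟨x, rfl⟩ := Submodule.Quotient.mk_surjective _ y
      rw [LinearMap.mem_ker] at hy
      have hy1 : Submodule.Quotient.mk (p := LinearMap.range TL) (g x) = 0 := hy
      rw [Submodule.Quotient.mk_eq_zero] at hy1
      obtain ⟨l, hl⟩ := hy1
      obtain ⟨m, rfl⟩ := hgs l
      have hxm : x - r 0 • m ∈ LinearMap.ker g := by
        rw [LinearMap.mem_ker, map_sub, map_smul, sub_eq_zero]
        exact hl.symm
      have e := key _ (hg hxm)
      have e2 : Submodule.Quotient.mk (p := LinearMap.range TM) (x - r 0 • m) =
          Submodule.Quotient.mk x := by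
        rw [Submodule.Quotient.eq]
        exact ⟨- m, by simp [TM]⟩
      rw [e2] at e
      exact e
    have h3 : finrank k (L ⧸ LinearMap.range TL) ≤ finrank k L := by
      have e2 : finrank k (L ⧸ LinearMap.range (TL.restrictScalars k)) =
          finrank k (L ⧸ LinearMap.range TL) := by
        apply LinearEquiv.finrank_eq
        exact Submodule.Quotient.restrictScalarsEquiv k (LinearMap.range TL)
      rw [← e2]
      exact Submodule.finrank_quotient_le _
    calc finrank k M ≤ q * finrank k (M ⧸ LinearMap.range TM) := h1
      _ ≤ q * (q ^ h * finrank k (L ⧸ LinearMap.range TL)) := Nat.mul_le_mul_left _ h2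
      _ ≤ q * (q ^ h * finrank k L) := Nat.mul_le_mul_left _ (Nat.mul_le_mul_left _ h3)
      _ = q ^ (h + 1) * finrank k L := by ring

end chain

end Pool.Agent.H92.MU
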