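import Pool.Agent.H92.MU.Gr

/-!
Coset spaces.
-/

set_option autoImplicit false
set_option linter.unusedSectionVars false
set_option linter.style.haveILetI false

namespace Pool.Agent.H92.MU

open CategoryTheory Module

section pr

variable {G : Type} [Group G] {U V : Subgroup G}

/-- the projection -/
def cpr (h : V ≤ U) : G ⧸ V → G ⧸ U := Subgroup.quotientMapOfLE h

theorem cpr_mk (h : V ≤ U) (g : G) : cpr h (g : G ⧸ V) = (g : G ⧸ U) := rfl

theorem cpr_smul (h : V ≤ U) (g : G) (x : G ⧸ V) : cpr h (g • x) = g • cpr h x := by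
  induction x using QuotientGroup.induction_on with
  | H a => rfl

theorem cpr_surj (h : V ≤ U) : Function.Surjective (cpr h) := by
  intro x
  induction x using QuotientGroup.induction_on with
  | H a => exact ⟨(a : G ⧸ V), rfl⟩

end pr

section act

variable {G : Type} [Group G] (U V : Subgroup G) [hVU : Fact (V ≤ U)]
  [hn : (V.subgroupOf U).Normal]

/-- `(u V) • (g V) = g u⁻¹ V`. -/
def qsmul (q : U ⧸ V.subgroupOf U) (x : G ⧸ V) : G ⧸ V :=
  Quotient.liftOn₂' q x (fun u g => ((g * (u : G)⁻¹ : G) : G ⧸ V)) (by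
    intro u₁ g₁ u₂ g₂ hu hg
    rw [QuotientGroup.leftRel_apply] at hu hg
    rw [QuotientGroup.eq]
    have h1 : u₁ * (u₂⁻¹ * u₁) * u₁⁻¹ ∈ V.subgroupOf U := by
      apply hn.conj_mem
      have := inv_mem hu
      rwa [mul_inv_rev, inv_inv] at this
    have h1' : (u₁ : G) * (u₂ : G)⁻¹ ∈ V := by
      have := Subgroup.mem_subgroupOf.1 h1
      push_cast at this
      have e : (u₁ : G) * ((u₂ : G)⁻¹ * u₁) * (u₁ : G)⁻¹ = (u₁ : G) * (u₂ : G)⁻¹ := by group
      rwa [e] at this
    have h2 : (u₁ : G) * (g₁⁻¹ * g₂) * (u₁ : G)⁻¹ ∈ V := by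
      have := hn.conj_mem ⟨g₁⁻¹ * g₂, hVU.out hg⟩ hg u₁
      exact this
    have e : (g₁ * (u₁ : G)⁻¹)⁻¹ * (g₂ * (u₂ : G)⁻¹) =
      ((u₁ : G) * (g₁⁻¹ * g₂) * (u₁ : G)⁻¹) * ((u₁ : G) * (u₂ : G)⁻¹) := by group
    rw [e]
    exact mul_mem h2 h1')

theorem qsmul_mk (u : U) (g : G) :
    qsmul U V (u : U ⧸ V.subgroupOf U) (g : G ⧸ V) = ((g * (u : G)⁻¹ : G) : G ⧸ V) := rfl

instance instQ : MulAction (U ⧸ V.subgroupOf U) (G ⧸ V) where
  smul q x := qsmul U V q x
  one_smul x := by
    induction x using QuotientGroup.induction_on with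
    | H g =>
      show qsmul U V ((1 : U) : U ⧸ V.subgroupOf U) (g : G ⧸ V) = g
      rw [qsmul_mk]
      simp
  mul_smul a b x := by
    induction x using QuotientGroup.induction_on with
    | H g =>
      induction a using QuotientGroup.induction_on with
      | H a =>
        induction b using QuotientGroup.induction_on with
        | H b =>
          show qsmul U V ((a * b : U) : U ⧸ V.subgroupOf U) (g : G ⧸ V) =
            qsmul U V (a : U ⧸ V.subgroupOf U) (qsmul U V (b : U ⧸ V.subgroupOf U) (g : G ⧸ V))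
          rw [qsmul_mk, qsmul_mk, qsmul_mk]
          push_cast
          rw [mul_inv_rev, mul_assoc]

theorem q_mk (u : U) (g : G) :
    (u : U ⧸ V.subgroupOf U) • (g : G ⧸ V) = ((g * (u : G)⁻¹ : G) : G ⧸ V) := rfl

instance instQcomm : SMulCommClass G (U ⧸ V.subgroupOf U) (G ⧸ V) := ⟨by
  intro g q x
  induction x using QuotientGroup.induction_on with
  | H h =>
    induction q using QuotientGroup.induction_on with
    | H u =>
      show g • ((u : U ⧸ V.subgroupOf U) • (h : G ⧸ V)) =
        (u : U ⧸ V.subgroupOf U) • (((g * h : G)) : G ⧸ V)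
      rw [q_mk, q_mk]
      show ((g * (h * (u : G)⁻¹) : G) : G ⧸ V) = _
      rw [mul_assoc]⟩

theorem cpr_q (q : U ⧸ V.subgroupOf U) (x : G ⧸ V) : cpr hVU.out (q • x) = cpr hVU.out x := by
  induction x using QuotientGroup.induction_on with
  | H g =>
    induction q using QuotientGroup.induction_on with
    | H u =>
      show cpr hVU.out ((u : U ⧸ V.subgroupOf U) • (g : G ⧸ V)) = cpr hVU.out (g : G ⧸ V)
      rw [q_mk, cpr_mk, cpr_mk, QuotientGroup.eq]
      simp

theorem exists_q (x y : G ⧸ V) (h : cpr hVU.out x = cpr hVU.out y) :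
    ∃ q : U ⧸ V.subgroupOf U, y = q • x := by
  induction x using QuotientGroup.induction_on with
  | H a =>
    induction y using QuotientGroup.induction_on with
    | H b =>
      rw [cpr_mk, cpr_mk, QuotientGroup.eq] at h
      refine ⟨((⟨a⁻¹ * b, h⟩⁻¹ : U) : U ⧸ V.subgroupOf U), ?_⟩
      rw [q_mk]
      simp

theorem q_free (q : U ⧸ V.subgroupOf U) (x : G ⧸ V) (h : q • x = x) : q = 1 := by
  induction x using QuotientGroup.induction_on with
  | H g =>
    induction q using QuotientGroup.induction_on with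
    | H u =>
      have h' : (u : U ⧸ V.subgroupOf U) • (g : G ⧸ V) = (g : G ⧸ V) := h
      rw [q_mk, QuotientGroup.eq] at h'
      have h2 : (u : G) ∈ V := by simpa using h'
      exact (QuotientGroup.eq_one_iff u).2 h2

end act

section top

variable {G : Type} [Group G] [TopologicalSpace G] [IsTopologicalGroup G]

theorem exists_core (V : Subgroup G) (hV : IsOpen (V : Set G)) [Finite (G ⧸ V)] :
    ∃ N : Subgroup G, IsOpen (N : Set G) ∧ ∀ g ∈ N, ∀ x : G ⧸ V, g • x = x := by
  refine ⟨⨅ x : G ⧸ V, MulAction.stabilizer G x, ?_, ?_⟩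
  · rw [Subgroup.coe_iInf]
    apply isOpen_iInter_of_finite
    intro x
    induction x using QuotientGroup.induction_on with
    | H a =>
      have : ((MulAction.stabilizer G (a : G ⧸ V) : Subgroup G) : Set G) =
          (fun g : G => a⁻¹ * g * a) ⁻¹' (V : Set G) := by
        ext g
        rw [SetLike.mem_coe, MulAction.mem_stabilizer_iff]
        show ((g * a : G) : G ⧸ V) = (a : G ⧸ V) ↔ _
        rw [eq_comm, QuotientGroup.eq, Set.mem_preimage, SetLike.mem_coe, mul_assoc]
      rw [this]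
      exact hV.preimage (by fun_prop)
  · intro g hg x
    exact (Subgroup.mem_iInf.1 hg) x

end top

end Pool.Agent.H92.MU
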