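import Pool.Agent.H92.MU.Eq

/-!
Every finite representation is a quotient of a sum of permutation modules.
-/

set_option autoImplicit false
set_option linter.unusedSectionVars false
set_option linter.style.haveILetI false

namespace Pool.Agent.H92.MU

open CategoryTheory Module

variable {F k G : Type} [Field F] [Field k] [Group G] [TopologicalSpace G]

section cov

variable {A : Rep.{0} F G} {N : Subgroup G} (hN : ∀ g ∈ N, ∀ x : A, A.ρ g x = x)
variable {n : ℕ} (b : Fin n → A)

/-- `g N ↦ g b_i` -/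
noncomputable def cpt (z : Ix (Fin n) (G ⧸ N)) : A :=
  Quotient.liftOn' z.snd (fun g : G => A.ρ g (b z.fst)) (by
    intro g h hgh
    rw [QuotientGroup.leftRel_apply] at hgh
    have h1 := hN _ hgh (b z.fst)
    show A.ρ g (b z.fst) = A.ρ h (b z.fst)
    conv_lhs => rw [← h1]
    rw [← Module.End.mul_apply, ← map_mul, mul_inv_cancel_left])

theorem cpt_mk (i : Fin n) (g : G) : cpt hN b ⟨i, (g : G ⧸ N)⟩ = A.ρ g (b i) := rfl

theorem cpt_smul (g : G) (z : Ix (Fin n) (G ⧸ N)) : cpt hN b (g • z) = A.ρ g (cpt hN b z) := by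
  obtain ⟨i, x⟩ := z
  induction x using QuotientGroup.induction_on with
  | H h =>
    rw [cpt_mk]
    show A.ρ (g * h) (b i) = _
    rw [map_mul]
    rfl

/-- the cover -/
noncomputable def cov : PO (Ix (Fin n) (G ⧸ N)) (Representation.trivial F G F) ⟶ A :=
  Rep.ofHom ⟨Finsupp.lsum F (fun z => LinearMap.toSpanSingleton F A (cpt hN b z)), fun g => by
    apply Finsupp.lhom_ext
    intro z c
    show Finsupp.lsum F (fun z => LinearMap.toSpanSingleton F A (cpt hN b z))
      (permRep (Ix (Fin n) (G ⧸ N)) (Representation.trivial F G F) g (Finsupp.single z c)) =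
      A.ρ g (Finsupp.lsum F (fun z => LinearMap.toSpanSingleton F A (cpt hN b z))
        (Finsupp.single z c))
    rw [permRep_single, Finsupp.lsum_single, Finsupp.lsum_single,
      Representation.trivial_apply, LinearMap.toSpanSingleton_apply,
      LinearMap.toSpanSingleton_apply, cpt_smul, map_smul]⟩

theorem cov_single (z : Ix (Fin n) (G ⧸ N)) (c : F) :
    (cov hN b).hom (Finsupp.single z c) = c • cpt hN b z := by
  show Finsupp.lsum F (fun z => LinearMap.toSpanSingleton F A (cpt hN b z))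
    (Finsupp.single z c) = _
  rw [Finsupp.lsum_single, LinearMap.toSpanSingleton_apply]

theorem cov_surj (hb : Submodule.span F (Set.range b) = ⊤) :
    Function.Surjective (cov hN b).hom := by
  have h : LinearMap.range (cov hN b).hom.toLinearMap = ⊤ := by
    rw [eq_top_iff, ← hb, Submodule.span_le]
    rintro _ ⟨i, rfl⟩
    refine ⟨Finsupp.single ⟨i, ((1 : G) : G ⧸ N)⟩ 1, ?_⟩
    show (cov hN b).hom (Finsupp.single ⟨i, ((1 : G) : G ⧸ N)⟩ 1) = b i
    rw [cov_single, cpt_mk, map_one, one_smul]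
    rfl
  intro x
  have hx : x ∈ LinearMap.range (cov hN b).hom.toLinearMap := by rw [h]; trivial
  exact hx

end cov

variable [IsTopologicalGroup G] [CompactSpace G]

/-- the trivial one dimensional representation -/
noncomputable def one (F G : Type) [Field F] [Group G] : Rep.{0} F G :=
  Rep.of (Representation.trivial F G F)

theorem isFin_one : IsFin (one F G) := by
  refine ⟨?_, ⊤, isOpen_univ, ?_⟩
  · show Module.Finite F F
    infer_instance
  · intro g _ x
    rfl

namespace Theory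

variable (T : Theory F k G)

theorem vanish_cov {A : Rep.{0} F G} (hA : IsFin A) {N : Subgroup G} (hNo : IsOpen (N : Set G))
    (hN : ∀ g ∈ N, ∀ x : A, A.ρ g x = x) (h0 : Subsingleton (T.H2.obj (ind N (one F G)))) :
    Subsingleton (T.H2.obj A) := by
  haveI := hA.1
  obtain ⟨n, b, hb⟩ := Module.Finite.exists_fin (R := F) (M := A)
  have hs := cov_surj hN b hb
  have hP : IsFin (PO (Ix (Fin n) (G ⧸ N)) (one F G).ρ) := isFin_indIx hNo isFin_one _
  have hK := isFin_kob (cov hN b) hP
  obtain ⟨-, -, -, h2⟩ := T.exact (kin (cov hN b)) (cov hN b) hK hP hA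
    (kin_inj _) (kin_exact _) hs
  haveI : Subsingleton (T.H2.obj (PO (G ⧸ N) (one F G).ρ)) := h0
  have h3 : Subsingleton (T.H2.obj (PO (Ix (Fin n) (G ⧸ N)) (one F G).ρ)) := by
    constructor
    intro x y
    rw [← T.as_pp (I := Fin n) (one F G).ρ x, ← T.as_pp (I := Fin n) (one F G).ρ y]
    congr 1
    exact Subsingleton.elim _ _
  haveI : Subsingleton (T.H2.obj (PO (Ix (Fin n) (G ⧸ N)) (Representation.trivial F G F))) := h3
  exact h2.subsingleton

end Theory

theorem exists_core' {V : Subgroup G} (hV : IsOpen (V : Set G)) :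
    ∃ N : Subgroup G, IsOpen (N : Set G) ∧ N.Normal ∧ N ≤ V := by
  haveI := fin_quo hV
  obtain ⟨M, hM, hM2⟩ := exists_core V hV
  refine ⟨(MulAction.toPermHom G (G ⧸ V)).ker, Subgroup.isOpen_mono ?_ hM, inferInstance, ?_⟩
  · intro g hg
    rw [MonoidHom.mem_ker]
    ext x
    exact hM2 g hg x
  · intro g hg
    rw [MonoidHom.mem_ker] at hg
    have h1 := congrArg (fun e => e ((1 : G) : G ⧸ V)) hg
    have h2 : ((g * 1 : G) : G ⧸ V) = ((1 : G) : G ⧸ V) := h1
    rw [mul_one, eq_comm, QuotientGroup.eq, inv_one, one_mul] at h2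
    exact h2

namespace Theory

variable (T : Theory F k G)

/-- **All finite representations.** -/
theorem all_iff {p : ℕ} [Fact p.Prime] [CharP k p] {U₀ : Subgroup G} (hU₀ : IsOpen (U₀ : Set G))
    [U₀.Normal] (hp₀ : ¬ p ∣ U₀.index) :
    (∀ A : Rep.{0} F G, IsFin A → Subsingleton (T.H2.obj A)) ↔
      ∀ U : Subgroup G, IsOpen (U : Set G) → U ≤ U₀ → ¬ p ∣ U.index → Small T p (one F G) U := by
  constructor
  · intro h U hU _ _
    exact T.small_of_vanish isFin_one hU (h _ (isFin_ind hU isFin_one))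
  · intro h A hA
    obtain ⟨-, M, hM, hM2⟩ := id hA
    obtain ⟨N, hN, hNn, hNM⟩ := exists_core' (V := M ⊓ U₀) (hM.inter hU₀)
    obtain ⟨U, hU, hUp, hNU⟩ := exists_sylow (p := p) hN
    apply T.vanish_cov hA hN (fun g hg => hM2 g (hNM hg).1)
    apply T.vanish_of_pnorm isFin_one hU hN hNU
    apply T.vanish_of_small isFin_one hU
    apply h U hU ?_ hUp
    -- `U` is contained in `U₀`
    intro a ha
    haveI := fin_quo hU₀
    obtain ⟨n, hn⟩ := hNU.2.2 a ha
    have h1 : ((a : G ⧸ U₀)) ^ p ^ n = 1 := by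
      rw [← QuotientGroup.mk_pow, QuotientGroup.eq_one_iff]
      exact (hNM hn).2
    have h2 : orderOf (a : G ⧸ U₀) ∣ p ^ n := orderOf_dvd_of_pow_eq_one h1
    have h3 : orderOf (a : G ⧸ U₀) ∣ U₀.index := by
      rw [Subgroup.index]
      exact orderOf_dvd_natCard _
    have h4 : (p ^ n).Coprime U₀.index :=
      Nat.Coprime.pow_left _ ((Nat.Prime.coprime_iff_not_dvd Fact.out).2 hp₀)
    have h5 : orderOf (a : G ⧸ U₀) = 1 := Nat.eq_one_of_dvd_coprimes h4 h2 h3
    rw [orderOf_eq_one_iff, QuotientGroup.eq_one_iff] at h5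
    exact h5

/-- **Fixed representation.** -/
theorem fixed_iff {p : ℕ} [Fact p.Prime] [CharP k p] {W : Rep.{0} F G} (hW : IsFin W)
    (D : Set G) :
    (∀ V : Subgroup G, IsOpen (V : Set G) → D ⊆ V → (∀ a b : G, a * b * a⁻¹ * b⁻¹ ∈ V) →
      Subsingleton (T.H2.obj (ind V W))) ↔
    ∀ U : Subgroup G, IsOpen (U : Set G) → D ⊆ U → (∀ a b : G, a * b * a⁻¹ * b⁻¹ ∈ U) →
      ¬ p ∣ U.index → Small T p W U := by
  constructor
  · intro h U hU hD hab _
    exact T.small_of_vanish hW hU (h U hU hD hab)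
  · intro h V hV hD hab
    haveI : V.Normal := ⟨fun v hv a => by
      have := mul_mem (hab a v) hv
      rwa [inv_mul_cancel_right] at this⟩
    obtain ⟨U, hU, hUp, hVU⟩ := exists_sylow (p := p) hV
    apply T.vanish_of_pnorm hW hU hV hVU
    apply T.vanish_of_small hW hU
    exact h U hU (hD.trans hVU.1) (fun a b => hVU.1 (hab a b)) hUp

end Theory

end Pool.Agent.H92.MU
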