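import Pool.Agent.H92.MU.Up
import Pool.Agent.H92.MU.Cos

/-!
Open subgroups of a compact group and growth of cohomology.
-/

set_option autoImplicit false
set_option linter.unusedSectionVars false
set_option linter.style.haveILetI false

namespace Pool.Agent.H92.MU

open CategoryTheory Module

variable {F k G : Type} [Field F] [Field k] [Group G] [TopologicalSpace G]

/-- `V` is a normal subgroup of `U` and `U/V` is abelian of exponent dividing `n`. -/
def AbExp (n : ℕ) (V U : Subgroup G) : Prop :=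
  V ≤ U ∧ (∀ a ∈ U, ∀ b ∈ U, a * b * a⁻¹ * b⁻¹ ∈ V) ∧ ∀ a ∈ U, a ^ n ∈ V

/-- `V` is a normal subgroup of `U` and every element of `U/V` has order a power of `p`. -/
def PNorm (p : ℕ) (V U : Subgroup G) : Prop :=
  V ≤ U ∧ (∀ a ∈ U, ∀ v ∈ V, a * v * a⁻¹ ∈ V) ∧ ∀ a ∈ U, ∃ n : ℕ, a ^ p ^ n ∈ V

/-- `F[G/V] ⊗ W` with the diagonal action of `G`. -/
noncomputable def ind (V : Subgroup G) (W : Rep.{0} F G) : Rep.{0} F G := PO (G ⧸ V) W.ρ

theorem AbExp.pnorm {p s : ℕ} {V U : Subgroup G} (h : AbExp (p ^ s) V U) : PNorm p V U := by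
  refine ⟨h.1, fun a ha v hv => ?_, fun a ha => ⟨s, h.2.2 a ha⟩⟩
  have := mul_mem (h.2.1 a ha v (h.1 hv)) hv
  rwa [inv_mul_cancel_right] at this

theorem PNorm.normal {p : ℕ} {V U : Subgroup G} (h : PNorm p V U) : (V.subgroupOf U).Normal :=
  ⟨fun v hv a => h.2.1 a.1 a.2 v.1 hv⟩

theorem PNorm.isPGroup {p : ℕ} {V U : Subgroup G} (h : PNorm p V U)
    [(V.subgroupOf U).Normal] : IsPGroup p (U ⧸ V.subgroupOf U) := by
  intro q
  induction q using QuotientGroup.induction_on with
  | H a =>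
    obtain ⟨n, hn⟩ := h.2.2 a.1 a.2
    refine ⟨n, ?_⟩
    rw [← QuotientGroup.mk_pow, QuotientGroup.eq_one_iff]
    exact hn

variable [IsTopologicalGroup G] [CompactSpace G]

theorem fin_quo {V : Subgroup G} (hV : IsOpen (V : Set G)) : Finite (G ⧸ V) :=
  Subgroup.quotient_finite_of_isOpen V hV

theorem isFin_ind {V : Subgroup G} (hV : IsOpen (V : Set G)) {W : Rep.{0} F G} (hW : IsFin W) :
    IsFin (ind V W) := by
  haveI := fin_quo hV
  haveI := hW.1
  obtain ⟨N, hN, hN2⟩ := exists_core V hV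
  obtain ⟨M, hM, hM2⟩ := hW.2
  exact isFin_PO W.ρ (N := N ⊓ M) (hN.inter hM) (fun g hg => hN2 g hg.1) (fun g hg => hM2 g hg.2)

theorem isFin_indIx {V : Subgroup G} (hV : IsOpen (V : Set G)) {W : Rep.{0} F G} (hW : IsFin W)
    (I : Type) [Finite I] : IsFin (PO (Ix I (G ⧸ V)) W.ρ) := by
  haveI := fin_quo hV
  haveI := hW.1
  obtain ⟨N, hN, hN2⟩ := exists_core V hV
  obtain ⟨M, hM, hM2⟩ := hW.2
  exact isFin_Ix W.ρ (N := N ⊓ M) (hN.inter hM) (fun g hg => hN2 g hg.1) (fun g hg => hM2 g hg.2)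

theorem finite_sub {U V : Subgroup G} (hV : IsOpen (V : Set G)) :
    Finite (U ⧸ V.subgroupOf U) := by
  haveI := fin_quo hV
  haveI : V.FiniteIndex := Subgroup.finiteIndex_of_finite_quotient
  exact inferInstance

namespace Theory

variable (T : Theory F k G)

/-- lower bound -/
theorem lower {p s : ℕ} [Fact p.Prime] [CharP k p] {W : Rep.{0} F G} (hW : IsFin W)
    {U V : Subgroup G} (hU : IsOpen (U : Set G)) (hV : IsOpen (V : Set G))
    (h : AbExp (p ^ s) V U) (hne : ¬ Subsingleton (T.H2.obj (ind U W))) :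
    V.relIndex U ≤ (p ^ s) ^ (finrank k (T.H1 (ind U W))) * finrank k (T.H2.obj (ind V W)) := by
  classical
  haveI := h.pnorm.normal
  haveI : Fact (V ≤ U) := ⟨h.1⟩
  haveI := finite_sub (U := U) hV
  letI : CommGroup (U ⧸ V.subgroupOf U) :=
    { (QuotientGroup.Quotient.group (V.subgroupOf U)) with
      mul_comm := by
        intro a b
        induction a using QuotientGroup.induction_on with
        | H a =>
          induction b using QuotientGroup.induction_on with
          | H b =>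
            rw [← QuotientGroup.mk_mul, ← QuotientGroup.mk_mul, QuotientGroup.eq]
            have := h.2.1 b⁻¹.1 b⁻¹.2 a⁻¹.1 a⁻¹.2
            show ((a * b)⁻¹ * (b * a) : U).1 ∈ V
            have e : (((a * b)⁻¹ * (b * a) : U) : G) =
                (b⁻¹ : U).1 * (a⁻¹ : U).1 * ((b⁻¹ : U).1)⁻¹ * ((a⁻¹ : U).1)⁻¹ := by
              push_cast
              group
            rw [e]
            exact this }
  letI := Fintype.ofFinite (U ⧸ V.subgroupOf U)
  have hexp : ∀ a : U ⧸ V.subgroupOf U, a ^ p ^ s = 1 := by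
    intro q
    induction q using QuotientGroup.induction_on with
    | H a =>
      rw [← QuotientGroup.mk_pow, QuotientGroup.eq_one_iff]
      exact h.2.2 a.1 a.2
  have := T.growth_free W.ρ (X := G ⧸ V) (Y := G ⧸ U) (Q := U ⧸ V.subgroupOf U) (p := p) (s := s)
    hexp (cpr h.1) (cpr_smul h.1) (cpr_surj h.1) (exists_q U V) (cpr_q U V) (q_free U V)
    (isFin_ind hV hW) (isFin_indIx hV hW _) (isFin_indIx hV hW _) (isFin_ind hU hW) hne
  rw [Subgroup.relIndex, Subgroup.index, Nat.card_eq_fintype_card]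
  exact this

/-- upper bound -/
theorem upper {p : ℕ} [Fact p.Prime] [CharP k p] {W : Rep.{0} F G} (hW : IsFin W)
    {U V : Subgroup G} (hU : IsOpen (U : Set G)) (hV : IsOpen (V : Set G))
    (h : PNorm p V U) :
    finrank k (T.H2.obj (ind V W)) ≤ V.relIndex U * finrank k (T.H2.obj (ind U W)) := by
  classical
  haveI := h.normal
  haveI : Fact (V ≤ U) := ⟨h.1⟩
  haveI := finite_sub (U := U) hV
  letI := Fintype.ofFinite (U ⧸ V.subgroupOf U)
  have := T.upper_free W.ρ (X := G ⧸ V) (Y := G ⧸ U) (Q := U ⧸ V.subgroupOf U) (p := p)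
    h.isPGroup (cpr h.1) (cpr_smul h.1) (cpr_surj h.1) (exists_q U V) (cpr_q U V)
    (isFin_ind hV hW) (isFin_indIx hV hW _) (isFin_ind hU hW)
  rw [Subgroup.relIndex, Subgroup.index, Nat.card_eq_fintype_card]
  exact this

end Theory

end Pool.Agent.H92.MU
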