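import Pool.Agent.H92.MU.Defs

/-!
Equivalence of vanishing with small growth.
-/

set_option autoImplicit false
set_option linter.unusedSectionVars false
set_option linter.style.haveILetI false

namespace Pool.Agent.H92.MU

open CategoryTheory Module

variable {F k G : Type} [Field F] [Field k] [Group G] [TopologicalSpace G]

/-- There is `s` such that for every `ε > 0` there is an open subgroup `V` of `U`, normal in `U`
with `U/V` abelian of exponent dividing `p ^ s`, such that
`dim H2(F[G/V] ⊗ W) < ε [G : V]`. -/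
def Small (T : Theory F k G) (p : ℕ) (W : Rep.{0} F G) (U : Subgroup G) : Prop :=
  ∃ s : ℕ, ∀ ε : ℝ, 0 < ε → ∃ V : Subgroup G, IsOpen (V : Set G) ∧ AbExp (p ^ s) V U ∧
    (finrank k (T.H2.obj (ind V W)) : ℝ) < ε * V.index

variable [IsTopologicalGroup G] [CompactSpace G]

namespace Theory

variable (T : Theory F k G)

theorem index_pos {V : Subgroup G} (hV : IsOpen (V : Set G)) : 0 < V.index := by
  haveI := fin_quo hV
  haveI : V.FiniteIndex := Subgroup.finiteIndex_of_finite_quotient
  exact Nat.pos_of_ne_zero Subgroup.FiniteIndex.index_ne_zero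

theorem vanish_of_small {p : ℕ} [Fact p.Prime] [CharP k p] {W : Rep.{0} F G} (hW : IsFin W)
    {U : Subgroup G} (hU : IsOpen (U : Set G)) (h : Small T p W U) :
    Subsingleton (T.H2.obj (ind U W)) := by
  by_contra hne
  obtain ⟨s, hs⟩ := h
  have hp : 0 < p := (Fact.out : p.Prime).pos
  obtain ⟨c, hc⟩ : ∃ c : ℕ, c = (p ^ s) ^ (finrank k (T.H1 (ind U W))) := ⟨_, rfl⟩
  have hc0 : 0 < c := by rw [hc]; positivity
  have hU0 : 0 < U.index := index_pos hU
  obtain ⟨V, hV, hAb, hlt⟩ := hs (1 / (c * U.index : ℝ)) (by positivity)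
  have h1 := T.lower hW hU hV hAb hne
  rw [← hc] at h1
  have h2 : V.relIndex U * U.index = V.index := Subgroup.relIndex_mul_index hAb.1
  have h3 : (V.index : ℝ) ≤ c * finrank k (T.H2.obj (ind V W)) * U.index := by
    rw [← h2]
    exact_mod_cast Nat.mul_le_mul_right _ h1
  have h4 : 0 < (c : ℝ) := by exact_mod_cast hc0
  have h5 : 0 < (U.index : ℝ) := by exact_mod_cast hU0
  rw [one_div, inv_mul_eq_div, lt_div_iff₀ (by positivity)] at hlt
  nlinarith

theorem finrank_zero {A : Rep.{0} F G} (hA : IsFin A) :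
    finrank k (T.H2.obj A) = 0 ↔ Subsingleton (T.H2.obj A) := by
  haveI := T.finite2 A hA
  exact Module.finrank_zero_iff

theorem vanish_of_pnorm {p : ℕ} [Fact p.Prime] [CharP k p] {W : Rep.{0} F G} (hW : IsFin W)
    {U V : Subgroup G} (hU : IsOpen (U : Set G)) (hV : IsOpen (V : Set G))
    (h : PNorm p V U) (h0 : Subsingleton (T.H2.obj (ind U W))) :
    Subsingleton (T.H2.obj (ind V W)) := by
  have h1 := T.upper hW hU hV h
  rw [(T.finrank_zero (isFin_ind hU hW)).2 h0, mul_zero, Nat.le_zero] at h1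
  exact (T.finrank_zero (isFin_ind hV hW)).1 h1

theorem small_of_vanish {p : ℕ} {W : Rep.{0} F G} (hW : IsFin W)
    {U : Subgroup G} (hU : IsOpen (U : Set G)) (h : Subsingleton (T.H2.obj (ind U W))) :
    Small T p W U := by
  refine ⟨1, fun ε hε => ⟨U, hU, ⟨le_rfl, fun a ha b hb => ?_, fun a ha => pow_mem ha _⟩, ?_⟩⟩
  · exact mul_mem (mul_mem (mul_mem ha hb) (inv_mem ha)) (inv_mem hb)
  · rw [(T.finrank_zero (isFin_ind hU hW)).2 h, Nat.cast_zero]
    have := index_pos hU
    positivity

/-- Passing to a smaller group through surjections. -/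
theorem vanish_of_le {W : Rep.{0} F G} (hW : IsFin W)
    {U V : Subgroup G} (hU : IsOpen (U : Set G)) (hV : IsOpen (V : Set G)) (h : V ≤ U)
    (h0 : Subsingleton (T.H2.obj (ind V W))) : Subsingleton (T.H2.obj (ind U W)) := by
  haveI : Subsingleton (T.H2.obj (PO (G ⧸ V) W.ρ)) := h0
  have hs : Function.Surjective (push W.ρ (cpr h) (cpr_smul h)).hom :=
    push_surj W.ρ (cpr h) (cpr_smul h) (cpr_surj h)
  have hK := isFin_kob (push W.ρ (cpr h) (cpr_smul h)) (isFin_ind hV hW)
  obtain ⟨-, -, -, h2⟩ := T.exact (kin (push W.ρ (cpr h) (cpr_smul h)))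
    (push W.ρ (cpr h) (cpr_smul h)) hK (isFin_ind hV hW) (isFin_ind hU hW)
    (kin_inj _) (kin_exact _) hs
  exact h2.subsingleton

end Theory

/-- A Sylow subgroup: for an open normal subgroup `N` there is `U` containing `N`, of index
prime to `p`, such that `U/N` is a `p`-group. -/
theorem exists_sylow {p : ℕ} [Fact p.Prime] {N : Subgroup G} (hN : IsOpen (N : Set G))
    [N.Normal] : ∃ U : Subgroup G, IsOpen (U : Set G) ∧ ¬ p ∣ U.index ∧ PNorm p N U := by
  haveI := fin_quo hN
  obtain ⟨P⟩ : Nonempty (Sylow p (G ⧸ N)) := inferInstance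
  have hle : N ≤ P.1.comap (QuotientGroup.mk' N) := by
    intro x hx
    rw [Subgroup.mem_comap]
    have : QuotientGroup.mk' N x = 1 := (QuotientGroup.eq_one_iff x).2 hx
    rw [this]
    exact one_mem _
  refine ⟨P.1.comap (QuotientGroup.mk' N), Subgroup.isOpen_mono hle hN, ?_, hle, ?_, ?_⟩
  · rw [Subgroup.index_comap_of_surjective _ (QuotientGroup.mk'_surjective N)]
    exact P.not_dvd_index
  · intro a _ v hv
    exact Subgroup.Normal.conj_mem inferInstance v hv a
  · intro a ha
    obtain ⟨n, hn⟩ := P.2 ⟨_, ha⟩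
    refine ⟨n, ?_⟩
    have h2 := congrArg Subtype.val hn
    have h3 : ((a ^ p ^ n : G) : G ⧸ N) = 1 := h2
    exact (QuotientGroup.eq_one_iff _).1 h3

end Pool.Agent.H92.MU
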