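import Pool.Agent.H92.MU.Perm

/-!
Exact sequences of permutation modules attached to a free action.
-/

set_option autoImplicit false
set_option linter.unusedSectionVars false
set_option linter.style.haveILetI false

namespace Pool.Agent.H92.MU

open CategoryTheory

variable {F G W : Type} [Field F] [Group G] [AddCommGroup W] [Module F W]
variable (ρ : Representation F G W)

section free

variable {X Y Q : Type} [MulAction G X] [MulAction G Y] [Group Q] [MulAction Q X]
  [SMulCommClass G Q X]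

/-- action of an element of `Q` -/
noncomputable def ac (q : Q) : PO X ρ ⟶ PO X ρ :=
  push ρ (fun x : X => q • x) fun g x => (smul_comm g q x).symm

/-- the difference of the action and the projection -/
noncomputable def DD : PO (Ix Q X) ρ ⟶ PO X ρ :=
  push ρ (fun z : Ix Q X => z.fst • z.snd) (fun g z => (smul_comm g z.fst z.snd).symm) -
    push ρ (fun z : Ix Q X => z.snd) (fun _ _ => rfl)

/-- the relations -/
noncomputable def RR : PO (Ix (Q × Q) X) ρ ⟶ PO (Ix Q X) ρ :=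
  push ρ (fun z : Ix (Q × Q) X => (⟨z.fst.1, z.fst.2 • z.snd⟩ : Ix Q X))
      (fun g z => by
        show (⟨z.fst.1, z.fst.2 • g • z.snd⟩ : Ix Q X) = ⟨z.fst.1, g • z.fst.2 • z.snd⟩
        rw [smul_comm g z.fst.2 z.snd]) -
    push ρ (fun z : Ix (Q × Q) X => (⟨z.fst.1 * z.fst.2, z.snd⟩ : Ix Q X)) (fun _ _ => rfl) +
    push ρ (fun z : Ix (Q × Q) X => (⟨z.fst.2, z.snd⟩ : Ix Q X)) (fun _ _ => rfl)

theorem DD_apply (z : Ix Q X →₀ W) : (DD ρ).hom z =
    Finsupp.mapDomain (fun z : Ix Q X => z.fst • z.snd) z -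
      Finsupp.mapDomain (fun z : Ix Q X => z.snd) z := rfl

theorem RR_apply (z : Ix (Q × Q) X →₀ W) : (RR ρ).hom z =
    Finsupp.mapDomain (fun z : Ix (Q × Q) X => (⟨z.fst.1, z.fst.2 • z.snd⟩ : Ix Q X)) z -
    Finsupp.mapDomain (fun z : Ix (Q × Q) X => (⟨z.fst.1 * z.fst.2, z.snd⟩ : Ix Q X)) z +
    Finsupp.mapDomain (fun z : Ix (Q × Q) X => (⟨z.fst.2, z.snd⟩ : Ix Q X)) z := rfl

theorem ii_DD (a : Q) : ii (X := X) ρ a ≫ DD ρ = ac ρ a - 𝟙 _ := by
  apply hom_ext'
  intro x w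
  show (DD ρ).hom ((ii ρ a).hom (Finsupp.single x w)) =
    (push ρ (fun x : X => a • x) _).hom (Finsupp.single x w) - Finsupp.single x w
  rw [ii_single, DD_apply, push_single, Finsupp.mapDomain_single, Finsupp.mapDomain_single]

theorem ii_RR (a b : Q) : ii (X := X) ρ (a, b) ≫ RR ρ =
    ac ρ b ≫ ii ρ a - ii ρ (a * b) + ii ρ b := by
  apply hom_ext'
  intro x w
  show (RR ρ).hom ((ii ρ (a, b)).hom (Finsupp.single x w)) =
    (ii ρ a).hom ((push ρ (fun x : X => b • x) _).hom (Finsupp.single x w)) -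
      (ii ρ (a * b)).hom (Finsupp.single x w) + (ii ρ b).hom (Finsupp.single x w)
  rw [ii_single, RR_apply, push_single, ii_single, ii_single, ii_single, Finsupp.mapDomain_single,
    Finsupp.mapDomain_single, Finsupp.mapDomain_single]

theorem DD_RR : RR (X := X) (Q := Q) ρ ≫ DD ρ = 0 := by
  apply hom_ext'
  rintro ⟨⟨a, b⟩, x⟩ w
  show (DD ρ).hom ((RR ρ).hom (Finsupp.single ⟨(a, b), x⟩ w)) = 0
  rw [RR_apply, Finsupp.mapDomain_single, Finsupp.mapDomain_single, Finsupp.mapDomain_single,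
    map_add, map_sub, DD_apply, DD_apply, DD_apply]
  simp only [Finsupp.mapDomain_single, mul_smul]
  abel

variable (π : X → Y) (hπ : ∀ (g : G) x, π (g • x) = g • π x)

theorem push_DD (hQ : ∀ (q : Q) x, π (q • x) = π x) : DD (Q := Q) ρ ≫ push ρ π hπ = 0 := by
  apply hom_ext'
  rintro ⟨a, x⟩ w
  show (push ρ π hπ).hom ((DD ρ).hom (Finsupp.single ⟨a, x⟩ w)) = 0
  rw [DD_apply, Finsupp.mapDomain_single, Finsupp.mapDomain_single, map_sub, push_single,
    push_single]
  simp only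
  rw [hQ, sub_self]

theorem push_surj (hs : Function.Surjective π) : Function.Surjective (push ρ π hπ).hom := by
  intro z
  refine ⟨Finsupp.mapDomain (Function.surjInv hs) z, ?_⟩
  rw [push_apply, ← Finsupp.mapDomain_comp]
  have : π ∘ Function.surjInv hs = id := funext fun y => Function.surjInv_eq hs y
  rw [this, Finsupp.mapDomain_id]

theorem exists_of_push (hs : Function.Surjective π)
    (ho : ∀ x y, π x = π y → ∃ q : Q, y = q • x) (z : X →₀ W) (hz : (push ρ π hπ).hom z = 0) :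
    ∃ y, (DD (Q := Q) ρ).hom y = z := by
  have hb : ∀ x, ∃ q : Q, x = q • Function.surjInv hs (π x) := fun x =>
    ho _ _ (Function.surjInv_eq hs (π x))
  choose b hb using hb
  refine ⟨Finsupp.mapDomain (fun x => (⟨b x, Function.surjInv hs (π x)⟩ : Ix Q X)) z, ?_⟩
  rw [DD_apply, ← Finsupp.mapDomain_comp, ← Finsupp.mapDomain_comp]
  have h1 : (fun z : Ix Q X => z.fst • z.snd) ∘
      (fun x => (⟨b x, Function.surjInv hs (π x)⟩ : Ix Q X)) = id := funext fun x => (hb x).symm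
  have h2 : (fun z : Ix Q X => z.snd) ∘
      (fun x => (⟨b x, Function.surjInv hs (π x)⟩ : Ix Q X)) = Function.surjInv hs ∘ π := rfl
  rw [h1, h2, Finsupp.mapDomain_id, Finsupp.mapDomain_comp]
  rw [push_apply] at hz
  rw [hz, Finsupp.mapDomain_zero, sub_zero]

theorem exists_of_DD (hs : Function.Surjective π)
    (ho : ∀ x y, π x = π y → ∃ q : Q, y = q • x) (hQ : ∀ (q : Q) x, π (q • x) = π x)
    (hfree : ∀ (q : Q) (x : X), q • x = x → q = 1)
    (z : Ix Q X →₀ W) (hz : (DD ρ).hom z = 0) :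
    ∃ y, (RR (Q := Q) ρ).hom y = z := by
  have hb : ∀ x, ∃ q : Q, x = q • Function.surjInv hs (π x) := fun x =>
    ho _ _ (Function.surjInv_eq hs (π x))
  choose b hb using hb
  have hbm : ∀ (a : Q) (x : X), b (a • x) = a * b x := by
    intro a x
    have h1 := hb (a • x)
    rw [hQ] at h1
    have h2 : (a * b x) • Function.surjInv hs (π x) = a • x := by
      rw [mul_smul, ← hb x]
    have h3 : ((a * b x)⁻¹ * b (a • x)) • Function.surjInv hs (π x) = Function.surjInv hs (π x) := by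
      rw [mul_smul, ← h1, ← h2, ← mul_smul, inv_mul_cancel, one_smul]
    have h4 := hfree _ _ h3
    rw [inv_mul_eq_one] at h4
    exact h4.symm
  refine ⟨Finsupp.mapDomain (fun z : Ix Q X =>
    (⟨(z.fst, b z.snd), Function.surjInv hs (π z.snd)⟩ : Ix (Q × Q) X)) z, ?_⟩
  rw [RR_apply, ← Finsupp.mapDomain_comp, ← Finsupp.mapDomain_comp, ← Finsupp.mapDomain_comp]
  have h1 : (fun z : Ix (Q × Q) X => (⟨z.fst.1, z.fst.2 • z.snd⟩ : Ix Q X)) ∘
      (fun z : Ix Q X => (⟨(z.fst, b z.snd), Function.surjInv hs (π z.snd)⟩ : Ix (Q × Q) X)) =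
      id := by
    funext z
    exact Ix.ext rfl (hb z.snd).symm
  have h2 : (fun z : Ix (Q × Q) X => (⟨z.fst.1 * z.fst.2, z.snd⟩ : Ix Q X)) ∘
      (fun z : Ix Q X => (⟨(z.fst, b z.snd), Function.surjInv hs (π z.snd)⟩ : Ix (Q × Q) X)) =
      (fun x => (⟨b x, Function.surjInv hs (π x)⟩ : Ix Q X)) ∘
        (fun z : Ix Q X => z.fst • z.snd) := by
    funext z
    refine Ix.ext ?_ ?_
    · exact (hbm z.fst z.snd).symm
    · show Function.surjInv hs (π z.snd) = Function.surjInv hs (π (z.fst • z.snd))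
      rw [hQ]
  have h3 : (fun z : Ix (Q × Q) X => (⟨z.fst.2, z.snd⟩ : Ix Q X)) ∘
      (fun z : Ix Q X => (⟨(z.fst, b z.snd), Function.surjInv hs (π z.snd)⟩ : Ix (Q × Q) X)) =
      (fun x => (⟨b x, Function.surjInv hs (π x)⟩ : Ix Q X)) ∘
        (fun z : Ix Q X => z.snd) := rfl
  rw [h1, h2, h3, Finsupp.mapDomain_id, Finsupp.mapDomain_comp, Finsupp.mapDomain_comp]
  rw [DD_apply, sub_eq_zero] at hz
  rw [hz]
  abel

end free

end Pool.Agent.H92.MU
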