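import Pool.Agent.H92.MU.Grp

/-!
Minimal generators of a module over the group algebra of an abelian `p`-group.
-/

set_option autoImplicit false
set_option linter.unusedSectionVars false
set_option linter.style.haveILetI false

namespace Pool.Agent.H92.MU

open Module MonoidAlgebra

variable {k : Type} [Field k] {A : Type} [CommGroup A] [Fintype A]

theorem mk_sum {N : Type} [AddCommGroup N] [Module k N] [Module (MonoidAlgebra k A) N]
    [IsScalarTower k (MonoidAlgebra k A) N] (S : Submodule (MonoidAlgebra k A) N) {ι : Type} (s : Finset ι) (c : ι → k) (n : ι → N) :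
    Submodule.Quotient.mk (p := S) (∑ i ∈ s, c i • n i) =
      ∑ i ∈ s, c i • Submodule.Quotient.mk (p := S) (n i) := by
  have e := map_sum (S.mkQ.restrictScalars k) (fun i => c i • n i) s
  simp only [map_smul] at e
  exact e

theorem fin_quot {N : Type} [AddCommGroup N] [Module k N] [Module (MonoidAlgebra k A) N]
    [IsScalarTower k (MonoidAlgebra k A) N] [FiniteDimensional k N] (S : Submodule (MonoidAlgebra k A) N) :
    FiniteDimensional k (N ⧸ S) := by
  have h : Function.Surjective (S.mkQ.restrictScalars k) := fun x =>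
    Submodule.Quotient.mk_surjective S x
  exact Module.Finite.of_surjective (S.mkQ.restrictScalars k) h

theorem exists_generators {N : Type} [AddCommGroup N] [Module k N] [Module (MonoidAlgebra k A) N]
    [IsScalarTower k (MonoidAlgebra k A) N] [FiniteDimensional k N]
    {p s : ℕ} [Fact p.Prime] [CharP k p] (hexp : ∀ a : A, a ^ p ^ s = 1)
    (hne : LinearMap.range (Dm (A := A) k N) ≠ ⊤) :
    ∃ (b : ℕ) (n : Fin (b + 1) → N),
      (∀ x : N, ∃ f : Fin (b + 1) → (MonoidAlgebra k A), ∑ i, f i • n i = x) ∧
      ∀ f : Fin (b + 1) → (MonoidAlgebra k A), ∑ i, f i • n i = 0 → ∀ i, f i ∈ II k A := by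
  classical
  have hIj : II k A ≤ Ideal.jacobson ⊥ := II_le hexp
  haveI : Module.Finite (MonoidAlgebra k A) N := Module.Finite.of_restrictScalars_finite k (MonoidAlgebra k A) N
  haveI hfC := fin_quot (k := k) (II k A • (⊤ : Submodule (MonoidAlgebra k A) N))
  obtain ⟨b, hb⟩ : ∃ b, finrank k (N ⧸ (II k A • (⊤ : Submodule (MonoidAlgebra k A) N))) = b + 1 := by
    haveI : Nontrivial (N ⧸ (II k A • (⊤ : Submodule (MonoidAlgebra k A) N))) := by
      rw [Submodule.Quotient.nontrivial_iff, ← range_Dm]
      exact hne
    exact ⟨_, (Nat.succ_pred_eq_of_pos Module.finrank_pos).symm⟩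
  obtain ⟨β⟩ : Nonempty (Basis (Fin (b + 1)) k (N ⧸ (II k A • (⊤ : Submodule (MonoidAlgebra k A) N)))) :=
    ⟨(Module.finBasis k _).reindex (finCongr hb)⟩
  obtain ⟨n, hn⟩ : ∃ n : Fin (b + 1) → N, ∀ i,
      Submodule.Quotient.mk (p := II k A • (⊤ : Submodule (MonoidAlgebra k A) N)) (n i) = β i :=
    ⟨fun i => (Submodule.Quotient.mk_surjective _ (β i)).choose,
      fun i => (Submodule.Quotient.mk_surjective _ (β i)).choose_spec⟩
  refine ⟨b, n, ?_, ?_⟩
  · have hr : (⊤ : Submodule (MonoidAlgebra k A) N) ≤ Submodule.span (MonoidAlgebra k A) (Set.range n) := by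
      apply Submodule.le_of_le_smul_of_le_jacobson_bot (I := II k A) Module.Finite.fg_top hIj
      intro x _
      have hx := β.sum_repr (Submodule.Quotient.mk x)
      have h1 : x - ∑ i, (β.repr (Submodule.Quotient.mk x) i) • n i ∈
          II k A • (⊤ : Submodule (MonoidAlgebra k A) N) := by
        rw [← Submodule.Quotient.eq, mk_sum]
        simp only [hn]
        exact hx.symm
      have h2 : ∑ i, (β.repr (Submodule.Quotient.mk x) i) • n i ∈
          Submodule.span (MonoidAlgebra k A) (Set.range n) := by
        apply Submodule.sum_mem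
        intro i _
        rw [← algebraMap_smul (MonoidAlgebra k A) (β.repr (Submodule.Quotient.mk x) i) (n i)]
        exact Submodule.smul_mem _ _ (Submodule.subset_span ⟨i, rfl⟩)
      rw [Submodule.mem_sup]
      exact ⟨_, h2, _, h1, by abel⟩
    intro x
    exact (Submodule.mem_span_range_iff_exists_fun (MonoidAlgebra k A)).1 (hr Submodule.mem_top)
  · intro f h1 i
    have h2 : ∑ i, (aug k A (f i)) • β i = 0 := by
      have e : ∑ i, (f i • n i - (aug k A (f i)) • n i) ∈ II k A • (⊤ : Submodule (MonoidAlgebra k A) N) :=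
        Submodule.sum_mem _ fun i _ => smul_sub_mem (f i) (n i)
      rw [Finset.sum_sub_distrib, h1, zero_sub, Submodule.neg_mem_iff] at e
      have e2 := (Submodule.Quotient.mk_eq_zero _).2 e
      rw [mk_sum] at e2
      simpa only [hn] using e2
    have h3 := Fintype.linearIndependent_iff.1 β.linearIndependent (fun i => aug k A (f i)) h2 i
    exact (mem_II _).2 h3

end Pool.Agent.H92.MU
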