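import Pool.Agent.H92.MU.G1

/-!
Relations of a module over the group algebra of an abelian `p`-group.
-/

set_option autoImplicit false
set_option linter.unusedSectionVars false
set_option linter.style.haveILetI false

namespace Pool.Agent.H92.MU

open Module MonoidAlgebra

variable {k : Type} [Field k] {A : Type} [CommGroup A] [Fintype A]

/-- coefficients -/
noncomputable def TF {b : ℕ} (f : Fin b → (MonoidAlgebra k A)) : A → (Fin b → (MonoidAlgebra k A)) :=
  fun a i => algebraMap k (MonoidAlgebra k A) ((f i).coeff a)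

/-- `∑ (f_i)_a n_i` -/
noncomputable def TT {N : Type} [AddCommGroup N] [Module k N] {b : ℕ} (n : Fin b → N) :
    (Fin b → (MonoidAlgebra k A)) →ₗ[k] (A → N) where
  toFun := fun f a => ∑ i, (f i).coeff a • n i
  map_add' := by
    intro f g
    ext a
    simp [add_smul, Finset.sum_add_distrib]
  map_smul' := by
    intro c f
    ext a
    simp [Finset.smul_sum, mul_smul]

theorem Dm_TF {b : ℕ} (f : Fin b → (MonoidAlgebra k A)) (hf : ∀ i, f i ∈ II k A) :
    Dm (A := A) k (Fin b → (MonoidAlgebra k A)) (TF f) = f := by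
  rw [Dm_apply]
  ext1 i
  rw [Finset.sum_apply]
  conv_rhs => rw [eq_sum_dd (f i) ((mem_II _).1 (hf i))]
  apply Finset.sum_congr rfl
  intro a _
  show dd k a • algebraMap k (MonoidAlgebra k A) ((f i).coeff a) = _
  rw [smul_eq_mul, mul_comm, Algebra.smul_def]

variable {N : Type} [AddCommGroup N] [Module k N] [Module (MonoidAlgebra k A) N]
    [IsScalarTower k (MonoidAlgebra k A) N]

/-- the map from the free module -/
noncomputable def pf {b : ℕ} (n : Fin b → N) : (Fin b → (MonoidAlgebra k A)) →ₗ[(MonoidAlgebra k A)] N :=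
  Fintype.linearCombination (MonoidAlgebra k A) n

theorem pf_apply {b : ℕ} (n : Fin b → N) (f : Fin b → (MonoidAlgebra k A)) : pf n f = ∑ i, f i • n i :=
  Fintype.linearCombination_apply (MonoidAlgebra k A) n f

theorem TT_eq {b : ℕ} (n : Fin b → N) (f : Fin b → (MonoidAlgebra k A)) (a : A) : TT n f a = pf n (TF f a) := by
  rw [pf_apply]
  show ∑ i, (f i).coeff a • n i = ∑ i, algebraMap k (MonoidAlgebra k A) ((f i).coeff a) • n i
  simp only [algebraMap_smul]

theorem TT_mem_ker {b : ℕ} (n : Fin b → N) (f : Fin b → (MonoidAlgebra k A)) (hf : pf n f = 0)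
    (hI : ∀ i, f i ∈ II k A) : Dm (A := A) k N (TT n f) = 0 := by
  have : TT n f = fun a => pf n (TF f a) := funext (TT_eq n f)
  rw [this, Dm_map, Dm_TF f hI]
  exact hf

/-- elements of the kernel that come from relations are decomposable -/
theorem mem_of_range {b : ℕ} (n : Fin b → N) (hsurj : ∀ x : N, ∃ f : Fin b → (MonoidAlgebra k A), pf n f = x)
    (z : Fin b → (MonoidAlgebra k A)) (hI : ∀ i, z i ∈ II k A) (y : A → A → N)
    (hy : Rm (A := A) k N y = TT n z) : z ∈ II k A • LinearMap.ker (pf (k := k) (A := A) n) := by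
  have hl : ∀ a c, ∃ f, pf n f = y a c := fun a c => hsurj _
  choose f hf using hl
  have hg : ∀ a, TF z a - Rm (A := A) k (Fin b → (MonoidAlgebra k A)) f a ∈ LinearMap.ker (pf (k := k) (A := A) n) := by
    intro a
    rw [LinearMap.mem_ker, map_sub, ← TT_eq, ← Rm_map, sub_eq_zero]
    have : (fun a b => pf n (f a b)) = y := by
      ext a b
      exact hf a b
    rw [this, hy]
  have hz1 : Dm (A := A) k (Fin b → (MonoidAlgebra k A)) (fun a => TF z a - Rm (A := A) k (Fin b → (MonoidAlgebra k A)) f a) = z := by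
    have : (fun a => TF z a - Rm (A := A) k (Fin b → (MonoidAlgebra k A)) f a) =
      TF z - Rm (A := A) k (Fin b → (MonoidAlgebra k A)) f := rfl
    rw [this, map_sub, Dm_Rm, sub_zero, Dm_TF _ hI]
  rw [← hz1, Dm_apply]
  apply Submodule.sum_mem
  intro a _
  exact Submodule.smul_mem_smul (Ideal.subset_span ⟨a, rfl⟩) (hg a)

end Pool.Agent.H92.MU
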