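import Pool.Agent.H92.MU.G2

/-!
Growth of modules over the group algebra of an abelian `p`-group of bounded exponent.
-/

set_option autoImplicit false
set_option linter.unusedSectionVars false
set_option linter.style.haveILetI false

namespace Pool.Agent.H92.MU

open Module MonoidAlgebra

variable {k : Type} [Field k] {A : Type} [CommGroup A] [Fintype A]

variable {N : Type} [AddCommGroup N] [Module k N] [Module (MonoidAlgebra k A) N]
    [IsScalarTower k (MonoidAlgebra k A) N] [FiniteDimensional k N]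

theorem finrank_map_mkQ {V : Type} [AddCommGroup V] [Module k V] [FiniteDimensional k V]
    (Rr Kd : Submodule k V) (hRK : Rr ≤ Kd) :
    finrank k (Kd.map Rr.mkQ) + finrank k Rr = finrank k Kd := by
  have e := LinearMap.finrank_range_add_finrank_ker (Rr.mkQ.domRestrict Kd)
  have e1 : LinearMap.range (Rr.mkQ.domRestrict Kd) = Kd.map Rr.mkQ := by
    rw [LinearMap.range_domRestrict]
  have e2 : finrank k (LinearMap.ker (Rr.mkQ.domRestrict Kd)) = finrank k Rr := by
    rw [LinearMap.ker_domRestrict, Submodule.ker_mkQ]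
    exact LinearEquiv.finrank_eq (Submodule.submoduleOfEquivOfLe hRK)
  rw [e1, e2] at e
  exact e

theorem exists_relations {p s : ℕ} [Fact p.Prime] [CharP k p] (hexp : ∀ a : A, a ^ p ^ s = 1)
    (h : ℕ) (hker : finrank k (LinearMap.ker ((Dm (A := A) k N).restrictScalars k)) ≤
      h + finrank k (LinearMap.range ((Rm (A := A) k N).restrictScalars k)))
    {b : ℕ} (n : Fin b → N) (hsurj : ∀ x : N, ∃ f : Fin b → (MonoidAlgebra k A), pf n f = x)
    (hZ : ∀ f : Fin b → (MonoidAlgebra k A), pf n f = 0 → ∀ i, f i ∈ II k A) :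
    ∃ (h' : ℕ) (z : Fin h' → (Fin b → (MonoidAlgebra k A))), h' ≤ h ∧ (∀ j, pf n (z j) = 0) ∧
      LinearMap.ker (pf (k := k) (A := A) n) ≤ Submodule.span (MonoidAlgebra k A) (Set.range z) := by
  classical
  have hIj : II k A ≤ Ideal.jacobson ⊥ := II_le hexp
  obtain ⟨Rr, hRr⟩ : ∃ Rr, Rr = LinearMap.range ((Rm (A := A) k N).restrictScalars k) := ⟨_, rfl⟩
  obtain ⟨Kd, hKd⟩ : ∃ Kd, Kd = LinearMap.ker ((Dm (A := A) k N).restrictScalars k) := ⟨_, rfl⟩
  rw [← hRr, ← hKd] at hker
  have hRK : Rr ≤ Kd := by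
    rw [hRr, hKd]
    rintro _ ⟨y, rfl⟩
    exact Dm_Rm k N y
  let Z := LinearMap.ker ((pf (k := k) (A := A) n).restrictScalars k)
  let Ψ : Z →ₗ[k] ((A → N) ⧸ Rr) := Rr.mkQ ∘ₗ (TT n) ∘ₗ Z.subtype
  have hΨ : ∀ z : Z, Ψ z = 0 → (z : Fin b → (MonoidAlgebra k A)) ∈ II k A • LinearMap.ker (pf (k := k) (A := A) n) := by
    intro z hz
    have h1 : TT n z.1 ∈ Rr := by
      rw [← Submodule.Quotient.mk_eq_zero]
      exact hz
    rw [hRr] at h1
    obtain ⟨y, hy⟩ := h1
    exact mem_of_range n hsurj z.1 (hZ _ z.2) y hy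
  have hrk : finrank k (LinearMap.range Ψ) ≤ h := by
    have h1 : LinearMap.range Ψ ≤ Kd.map Rr.mkQ := by
      rintro _ ⟨z, rfl⟩
      refine ⟨TT n z.1, ?_, rfl⟩
      rw [hKd]
      exact TT_mem_ker n z.1 z.2 (hZ _ z.2)
    have h2 := finrank_map_mkQ Rr Kd hRK
    have h3 := Submodule.finrank_mono h1
    omega
  obtain ⟨γ⟩ : Nonempty (Basis (Fin (finrank k (LinearMap.range Ψ))) k (LinearMap.range Ψ)) :=
    ⟨Module.finBasis k _⟩
  have hγ : ∀ j, ∃ z : Z, Ψ z = (γ j : (A → N) ⧸ Rr) := fun j => (γ j).2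
  choose z hz using hγ
  refine ⟨_, fun j => (z j : Fin b → (MonoidAlgebra k A)), hrk, fun j => (z j).2, ?_⟩
  haveI : IsNoetherianRing (MonoidAlgebra k A) := isNoetherian_of_tower k inferInstance
  apply Submodule.le_of_le_smul_of_le_jacobson_bot (I := II k A) (IsNoetherian.noetherian _) hIj
  intro x hx
  have hx' : x ∈ Z := hx
  have hx1 := γ.sum_repr ⟨Ψ ⟨x, hx'⟩, LinearMap.mem_range_self _ _⟩
  obtain ⟨c, hc⟩ : ∃ c : Fin (finrank k (LinearMap.range Ψ)) → k,
      ∑ j, c j • ((γ j : LinearMap.range Ψ) : (A → N) ⧸ Rr) = Ψ ⟨x, hx'⟩ := by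
    refine ⟨fun j => γ.repr ⟨Ψ ⟨x, hx'⟩, LinearMap.mem_range_self _ _⟩ j, ?_⟩
    have := congrArg (LinearMap.range Ψ).subtype hx1
    rw [map_sum] at this
    simp only [map_smul] at this
    exact this
  have h1 : Ψ (⟨x, hx'⟩ - ∑ j, c j • z j) = 0 := by
    rw [map_sub, map_sum, sub_eq_zero, ← hc]
    simp only [map_smul, hz]
  have h2 := hΨ _ h1
  have h3 : ((∑ j, c j • z j : Z) : Fin b → (MonoidAlgebra k A)) ∈
      Submodule.span (MonoidAlgebra k A) (Set.range fun j => (z j : Fin b → (MonoidAlgebra k A))) := by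
    rw [AddSubmonoidClass.coe_finsetSum]
    apply Submodule.sum_mem
    intro j _
    have : ((c j • z j : Z) : Fin b → (MonoidAlgebra k A)) = (algebraMap k (MonoidAlgebra k A) (c j)) • (z j : Fin b → (MonoidAlgebra k A)) := by
      rw [algebraMap_smul]
      rfl
    rw [this]
    exact Submodule.smul_mem _ _ (Submodule.subset_span ⟨j, rfl⟩)
  rw [Submodule.mem_sup]
  refine ⟨_, h3, _, h2, ?_⟩
  show ((∑ j, c j • z j : Z) : Fin b → (MonoidAlgebra k A)) + (x - ((∑ j, c j • z j : Z) : Fin b → (MonoidAlgebra k A))) = x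
  abel

theorem growth {p s : ℕ} [Fact p.Prime] [CharP k p] (hexp : ∀ a : A, a ^ p ^ s = 1)
    (h : ℕ) (hker : finrank k (LinearMap.ker ((Dm (A := A) k N).restrictScalars k)) ≤
      h + finrank k (LinearMap.range ((Rm (A := A) k N).restrictScalars k)))
    (hne : LinearMap.range (Dm (A := A) k N) ≠ ⊤) :
    Fintype.card A ≤ (p ^ s) ^ h * finrank k N := by
  classical
  obtain ⟨b, n, hsurj, hZ⟩ := exists_generators hexp hne
  have hsurj' : ∀ x : N, ∃ f : Fin (b + 1) → (MonoidAlgebra k A), pf n f = x := by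
    intro x
    obtain ⟨f, hf⟩ := hsurj x
    exact ⟨f, by rw [pf_apply]; exact hf⟩
  have hZ' : ∀ f : Fin (b + 1) → (MonoidAlgebra k A), pf n f = 0 → ∀ i, f i ∈ II k A := by
    intro f hf
    rw [pf_apply] at hf
    exact hZ f hf
  obtain ⟨h', z, hh', hz, hspan⟩ := exists_relations hexp h hker n hsurj' hZ'
  let S : Submodule (MonoidAlgebra k A) N := Submodule.span (MonoidAlgebra k A) (Set.range fun i : Fin b => n i.succ)
  haveI := fin_quot (k := k) S
  let g : (MonoidAlgebra k A) →ₗ[(MonoidAlgebra k A)] (N ⧸ S) := S.mkQ ∘ₗ (LinearMap.toSpanSingleton (MonoidAlgebra k A) N (n 0))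
  have hg : ∀ r, g r = Submodule.Quotient.mk (r • n 0) := fun r => rfl
  have hgs : Function.Surjective g := by
    intro y
    obtain ⟨x, rfl⟩ := Submodule.Quotient.mk_surjective _ y
    obtain ⟨f, rfl⟩ := hsurj x
    refine ⟨f 0, ?_⟩
    rw [hg, Submodule.Quotient.eq, Fin.sum_univ_succ, sub_add_cancel_left, Submodule.neg_mem_iff]
    apply Submodule.sum_mem
    intro i hi
    exact Submodule.smul_mem _ _ (Submodule.subset_span ⟨i, rfl⟩)
  have hgk : LinearMap.ker g ≤ Ideal.span (Set.range fun j : Fin h' => z j 0) •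
        (⊤ : Submodule (MonoidAlgebra k A) (MonoidAlgebra k A)) := by
    intro r hr
    rw [LinearMap.mem_ker, hg, Submodule.Quotient.mk_eq_zero] at hr
    obtain ⟨c, hc⟩ := (Submodule.mem_span_range_iff_exists_fun (MonoidAlgebra k A)).1 hr
    have hfZ : (Fin.cons r (fun i => - c i) : Fin (b + 1) → (MonoidAlgebra k A)) ∈
        LinearMap.ker (pf (k := k) (A := A) n) := by
      rw [LinearMap.mem_ker, pf_apply, Fin.sum_univ_succ]
      simp only [Fin.cons_zero, Fin.cons_succ, neg_smul, Finset.sum_neg_distrib]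
      rw [hc, add_neg_cancel]
    obtain ⟨d, hd⟩ := (Submodule.mem_span_range_iff_exists_fun (MonoidAlgebra k A)).1 (hspan hfZ)
    have e2 : r = ∑ j, d j * z j 0 := by
      have := congrFun hd 0
      rw [Finset.sum_apply] at this
      simpa using this.symm
    rw [e2]
    apply Submodule.sum_mem
    intro j _
    rw [mul_comm]
    exact Submodule.smul_mem_smul (Ideal.subset_span ⟨j, rfl⟩) Submodule.mem_top
  have hfin := finrank_le_mul (k := k) (p ^ s) h' (fun j => z j 0)
    (fun j => pow_II hexp _ (hZ' _ (hz j) 0)) (MonoidAlgebra k A) (N ⧸ S) g hgs hgk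
  have hcard : finrank k (MonoidAlgebra k A) = Fintype.card A := by
    have : finrank k (MonoidAlgebra k A) = finrank k (A →₀ k) :=
      LinearEquiv.finrank_eq (MonoidAlgebra.coeffLinearEquiv k)
    rw [this]
    simp
  have hL : finrank k (N ⧸ S) ≤ finrank k N := by
    have e2 : finrank k (N ⧸ S.restrictScalars k) = finrank k (N ⧸ S) := by
      apply LinearEquiv.finrank_eq
      exact Submodule.Quotient.restrictScalarsEquiv k S
    rw [← e2]
    exact Submodule.finrank_quotient_le _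
  calc Fintype.card A = finrank k (MonoidAlgebra k A) := hcard.symm
    _ ≤ (p ^ s) ^ h' * finrank k (N ⧸ S) := hfin
    _ ≤ (p ^ s) ^ h * finrank k N :=
      Nat.mul_le_mul (Nat.pow_le_pow_right (pow_pos (Fact.out : p.Prime).pos _) hh') hL

end Pool.Agent.H92.MU
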