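import Pool.Agent.H92.MU.Th

/-!
Growth for a free action of a finite commutative `p`-group.
-/

set_option autoImplicit false
set_option linter.unusedSectionVars false
set_option linter.style.haveILetI false

namespace Pool.Agent.H92.MU

open CategoryTheory Module

variable {F k G : Type} [Field F] [Field k] [Group G] [TopologicalSpace G]
variable {W : Type} [AddCommGroup W] [Module F W]

section fin

variable (ρ : Representation F G W)

theorem isFin_PO {X : Type} [MulAction G X] [Finite X] [Module.Finite F W]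
    {N : Subgroup G} (hN : IsOpen (N : Set G)) (hNX : ∀ g ∈ N, ∀ x : X, g • x = x)
    (hNW : ∀ g ∈ N, ∀ w : W, ρ g w = w) : IsFin (PO X ρ) := by
  refine ⟨?_, N, hN, ?_⟩
  · show Module.Finite F (X →₀ W)
    infer_instance
  · intro g hg z
    show permRep X ρ g z = z
    have : permRep X ρ g = LinearMap.id := by
      apply Finsupp.lhom_ext
      intro x w
      rw [permRep_single, hNX g hg, hNW g hg]
      rfl
    rw [this]
    rfl

theorem isFin_Ix {I X : Type} [MulAction G X] [Finite X] [Finite I] [Module.Finite F W]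
    {N : Subgroup G} (hN : IsOpen (N : Set G)) (hNX : ∀ g ∈ N, ∀ x : X, g • x = x)
    (hNW : ∀ g ∈ N, ∀ w : W, ρ g w = w) : IsFin (PO (Ix I X) ρ) :=
  isFin_PO ρ hN (fun g hg z => by
    show (⟨z.fst, g • z.snd⟩ : Ix I X) = z
    rw [hNX g hg]) hNW

end fin

namespace Theory

variable (T : Theory F k G) (ρ : Representation F G W)

section comp

variable {I X : Type} [MulAction G X] [Fintype I]

/-- assemble -/
noncomputable def as : (I → T.H2.obj (PO X ρ)) →ₗ[k] T.H2.obj (PO (Ix I X) ρ) :=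
  ∑ i : I, T.mp (ii ρ i) ∘ₗ LinearMap.proj i

theorem as_apply (y : I → T.H2.obj (PO X ρ)) : T.as ρ y = ∑ i : I, T.mp (ii ρ i) (y i) := by
  simp [as]

theorem pp_as (y : I → T.H2.obj (PO X ρ)) (j : I) : T.mp (pp ρ j) (T.as ρ y) = y j := by
  classical
  rw [as_apply, map_sum, Finset.sum_eq_single j]
  · rw [← mp_comp_apply, ii_pp_same, mp_id]
    rfl
  · intro i _ hij
    rw [← mp_comp_apply, ii_pp_ne _ _ _ hij, mp_zero]
    rfl
  · intro h
    exact absurd (Finset.mem_univ j) h

theorem as_pp (z : T.H2.obj (PO (Ix I X) ρ)) : T.as ρ (fun j : I => T.mp (pp ρ j) z) = z := by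
  rw [as_apply]
  have h := congrArg (fun u => T.mp u z) (sum_pp_ii (I := I) (X := X) ρ)
  rw [mp_sum, mp_id, LinearMap.sum_apply] at h
  refine Eq.trans ?_ h
  apply Finset.sum_congr rfl
  intro i _
  exact (T.mp_comp_apply _ _ z).symm

end comp

section actions

variable {X Q : Type} [MulAction G X] [Group Q] [MulAction Q X] [SMulCommClass G Q X]

/-- the action of `Q` on `H2` -/
noncomputable def actQ : Q →* Module.End k (T.H2.obj (PO X ρ)) where
  toFun q := T.mp (ac ρ q)
  map_one' := by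
    have : ac (X := X) ρ (1 : Q) = 𝟙 _ := by
      apply hom_ext'
      intro x w
      show (push ρ (fun x : X => (1 : Q) • x) _).hom (Finsupp.single x w) = Finsupp.single x w
      rw [push_single, one_smul]
    rw [this, mp_id]
    rfl
  map_mul' a b := by
    have : ac (X := X) ρ (a * b) = ac ρ b ≫ ac ρ a := by
      apply hom_ext'
      intro x w
      show (ac ρ (a * b)).hom (Finsupp.single x w) =
        (ac ρ a).hom ((ac ρ b).hom (Finsupp.single x w))
      rw [ac, ac, ac, push_single, push_single, push_single, mul_smul]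
    rw [this, mp_comp]
    rfl

theorem actQ_apply (q : Q) : T.actQ (X := X) ρ q = T.mp (ac ρ q) := rfl

/-- the algebra homomorphism -/
noncomputable def algQ : MonoidAlgebra k Q →ₐ[k] Module.End k (T.H2.obj (PO X ρ)) :=
  MonoidAlgebra.lift k _ Q (T.actQ ρ)

theorem algQ_single (q : Q) : T.algQ (X := X) ρ (MonoidAlgebra.single q 1) = T.mp (ac ρ q) := by
  rw [algQ, MonoidAlgebra.lift_single, one_smul, actQ_apply]

/-- the module structure -/
@[reducible] noncomputable def modQ : Module (MonoidAlgebra k Q) (T.H2.obj (PO X ρ)) :=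
  Module.compHom _ (T.algQ (X := X) (Q := Q) ρ).toRingHom

end actions

section gro

variable {X Y Q : Type} [MulAction G X] [MulAction G Y] [CommGroup Q] [Fintype Q] [MulAction Q X]
  [SMulCommClass G Q X]

/-- growth for a free action -/
theorem growth_free {p s : ℕ} [Fact p.Prime] [CharP k p] (hexp : ∀ a : Q, a ^ p ^ s = 1)
    (π : X → Y) (hπ : ∀ (g : G) x, π (g • x) = g • π x) (hs : Function.Surjective π)
    (ho : ∀ x y, π x = π y → ∃ q : Q, y = q • x) (hQ : ∀ (q : Q) x, π (q • x) = π x)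
    (hfree : ∀ (q : Q) (x : X), q • x = x → q = 1)
    (f0 : IsFin (PO X ρ)) (f1 : IsFin (PO (Ix Q X) ρ)) (f2 : IsFin (PO (Ix (Q × Q) X) ρ))
    (fY : IsFin (PO Y ρ)) (hne : ¬ Subsingleton (T.H2.obj (PO Y ρ))) :
    Fintype.card Q ≤ (p ^ s) ^ (finrank k (T.H1 (PO Y ρ))) * finrank k (T.H2.obj (PO X ρ)) := by
  classical
  letI := T.modQ (X := X) (Q := Q) ρ
  haveI := T.finite2 _ f0
  haveI := T.finite2 _ f1
  haveI := T.finite2 _ f2
  haveI := T.finite2 _ fY
  have hsm : ∀ (r : MonoidAlgebra k Q) (n : T.H2.obj (PO X ρ)), r • n = T.algQ ρ r n :=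
    fun _ _ => rfl
  haveI : IsScalarTower k (MonoidAlgebra k Q) (T.H2.obj (PO X ρ)) := ⟨fun c r n => by
    rw [hsm, hsm, map_smul]
    rfl⟩
  have hsing : ∀ (a : Q) (n : T.H2.obj (PO X ρ)),
      (MonoidAlgebra.single a (1 : k)) • n = T.mp (ac ρ a) n := fun a n => by
    rw [hsm, algQ_single]
  have hdd : ∀ (a : Q) (n : T.H2.obj (PO X ρ)), dd k a • n = T.mp (ac ρ a) n - n := fun a n => by
    rw [dd, sub_smul, hsing, one_smul]
  have hD : ∀ y : Q → T.H2.obj (PO X ρ), T.mp (DD ρ) (T.as ρ y) = Dm k _ y := by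
    intro y
    rw [as_apply, map_sum, Dm_apply]
    apply Finset.sum_congr rfl
    intro a _
    rw [← mp_comp_apply, ii_DD, mp_sub, mp_id, hdd]
    rfl
  have hR : ∀ y : Q → Q → T.H2.obj (PO X ρ),
      T.mp (RR ρ) (T.as ρ (fun u : Q × Q => y u.1 u.2)) = T.as ρ (Rm k _ y) := by
    intro y
    rw [as_apply, map_sum, Fintype.sum_prod_type]
    have e : ∀ a b : Q, T.mp (RR ρ) (T.mp (ii ρ (a, b)) (y a b)) =
        T.mp (ii ρ a) (T.mp (ac ρ b) (y a b)) - T.mp (ii ρ (a * b)) (y a b) +
          T.mp (ii ρ b) (y a b) := by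
      intro a b
      rw [← mp_comp_apply, ii_RR, mp_add, mp_sub, mp_comp]
      rfl
    rw [Finset.sum_congr rfl fun a _ => Finset.sum_congr rfl fun b _ => e a b]
    simp only [Finset.sum_add_distrib, Finset.sum_sub_distrib]
    rw [as_apply]
    simp only [Rm_apply, map_add, map_sub, map_sum, Finset.sum_add_distrib,
      Finset.sum_sub_distrib, hsing]
    congr 1
    · congr 1
      rw [Finset.sum_comm (f := fun c a => T.mp (ii ρ c) (y a (a⁻¹ * c)))]
      apply Finset.sum_congr rfl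
      intro a _
      rw [← Equiv.sum_comp (Equiv.mulLeft a) (fun c => T.mp (ii ρ c) (y a (a⁻¹ * c)))]
      simp
    · exact Finset.sum_comm
  have hinj : ∀ (I : Type) [Fintype I] (y z : I → T.H2.obj (PO X ρ)),
      T.as ρ y = T.as ρ z → y = z := by
    intro I _ y z h
    funext j
    rw [← T.pp_as ρ y j, ← T.pp_as ρ z j, h]
  have hsur : ∀ (I : Type) [Fintype I] (z : T.H2.obj (PO (Ix I X) ρ)), ∃ y, T.as ρ y = z := by
    intro I _ z
    exact ⟨_, T.as_pp ρ z⟩
  -- kernel and range comparison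
  have hk1 : finrank k (LinearMap.ker ((Dm (A := Q) k (T.H2.obj (PO X ρ))).restrictScalars k)) ≤
      finrank k (LinearMap.ker (T.mp (DD (X := X) (Q := Q) ρ))) := by
    have : ∀ y : LinearMap.ker ((Dm (A := Q) k (T.H2.obj (PO X ρ))).restrictScalars k),
        T.as ρ y.1 ∈ LinearMap.ker (T.mp (DD (X := X) (Q := Q) ρ)) := by
      intro y
      rw [LinearMap.mem_ker, hD]
      exact y.2
    apply LinearMap.finrank_le_finrank_of_injective
      (f := LinearMap.codRestrict (LinearMap.ker (T.mp (DD (X := X) (Q := Q) ρ)))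
        (T.as ρ ∘ₗ (Submodule.subtype _)) this)
    intro y z hyz
    apply Subtype.ext
    apply hinj
    exact congrArg Subtype.val hyz
  have hk2 : finrank k (LinearMap.range (T.mp (RR (X := X) (Q := Q) ρ))) ≤
      finrank k (LinearMap.range ((Rm (A := Q) k (T.H2.obj (PO X ρ))).restrictScalars k)) := by
    have : LinearMap.range (T.mp (RR (X := X) (Q := Q) ρ)) ≤
        (LinearMap.range ((Rm (A := Q) k (T.H2.obj (PO X ρ))).restrictScalars k)).map (T.as ρ) := by
      rintro _ ⟨z, rfl⟩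
      obtain ⟨y, rfl⟩ := hsur _ z
      refine ⟨Rm k _ (fun a b => y (a, b)), ⟨_, rfl⟩, ?_⟩
      rw [← hR]
    exact le_trans (Submodule.finrank_mono this) (Submodule.finrank_map_le _ _)
  have hk3 := T.ker_le (RR (X := X) (Q := Q) ρ) (DD ρ) (push ρ π hπ) f2 f1 f0 fY (DD_RR ρ)
    (push_DD ρ π hπ hQ) (exists_of_DD ρ π hs ho hQ hfree) (exists_of_push ρ π hπ hs ho)
    (push_surj ρ π hπ hs)
  refine growth hexp _ (le_trans hk1 (le_trans hk3 (Nat.add_le_add_left hk2 _))) ?_
  intro htop
  apply hne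
  obtain ⟨hex, hsurj⟩ := T.rexact (DD (Q := Q) ρ) (push ρ π hπ) f1 f0 fY
    (push_DD ρ π hπ hQ) (exists_of_push ρ π hπ hs ho) (push_surj ρ π hπ hs)
  have hz : ∀ u : T.H2.obj (PO Y ρ), u = 0 := by
    intro u
    obtain ⟨x, rfl⟩ := hsurj u
    obtain ⟨y, hy⟩ : x ∈ LinearMap.range (Dm (A := Q) k (T.H2.obj (PO X ρ))) := by
      rw [htop]
      trivial
    rw [← hD] at hy
    exact (hex x).2 ⟨_, hy⟩
  exact ⟨fun u v => by rw [hz u, hz v]⟩

end gro

end Theory

end Pool.Agent.H92.MU
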