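import Pool.Agent.H92.MU.Alg

/-!
Modules over the group algebra of a finite commutative group.
-/

set_option autoImplicit false
set_option linter.unusedSectionVars false
set_option linter.style.haveILetI false

namespace Pool.Agent.H92.MU

open Module MonoidAlgebra

section aug

variable {k : Type*} [Field k] {A : Type*} [CommGroup A] [Fintype A]

/-- `a - 1` -/
noncomputable def dd (k : Type*) [Field k] {A : Type*} [CommGroup A] (a : A) : MonoidAlgebra k A :=
  MonoidAlgebra.single a 1 - 1

/-- augmentation -/
noncomputable def aug (k : Type*) [Field k] (A : Type*) [CommGroup A] : MonoidAlgebra k A →ₐ[k] k :=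
  MonoidAlgebra.lift k k A 1

theorem aug_single (a : A) (c : k) : aug k A (MonoidAlgebra.single a c) = c := by
  simp [aug]

theorem aug_dd (a : A) : aug k A (dd k a) = 0 := by
  simp [dd, aug_single]

theorem eq_sum (r : MonoidAlgebra k A) : r = ∑ a : A, MonoidAlgebra.single a (r.coeff a) := by
  classical
  ext b
  simp [MonoidAlgebra.coeff_sum, Finsupp.single_apply]

theorem aug_eq (r : MonoidAlgebra k A) : aug k A r = ∑ a : A, r.coeff a := by
  conv_lhs => rw [eq_sum r]
  rw [map_sum]
  simp only [aug_single]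

theorem eq_sum_dd (r : MonoidAlgebra k A) (hr : aug k A r = 0) :
    r = ∑ a : A, (r.coeff a) • dd k a := by
  have h1 : ∑ a : A, (r.coeff a) • dd k a = ∑ a : A, MonoidAlgebra.single a (r.coeff a) -
      (∑ a : A, r.coeff a) • (1 : MonoidAlgebra k A) := by
    rw [Finset.sum_smul, ← Finset.sum_sub_distrib]
    apply Finset.sum_congr rfl
    intro a _
    rw [dd, smul_sub, MonoidAlgebra.smul_single, smul_eq_mul, mul_one]
  rw [h1, ← eq_sum, ← aug_eq, hr, zero_smul, sub_zero]

/-- the augmentation ideal -/
noncomputable def II (k : Type*) [Field k] (A : Type*) [CommGroup A] : Ideal (MonoidAlgebra k A) :=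
  Ideal.span (Set.range (dd k : A → MonoidAlgebra k A))

theorem mem_II (r : MonoidAlgebra k A) : r ∈ II k A ↔ aug k A r = 0 := by
  constructor
  · intro h
    induction h using Submodule.span_induction with
    | mem x hx => obtain ⟨a, rfl⟩ := hx; exact aug_dd a
    | zero => exact map_zero _
    | add x y _ _ hx hy => rw [map_add, hx, hy, add_zero]
    | smul c x _ hx => rw [smul_eq_mul, map_mul, hx, mul_zero]
  · intro h
    rw [eq_sum_dd r h]
    apply Submodule.sum_mem
    intro a _
    exact Submodule.smul_of_tower_mem _ _ (Ideal.subset_span ⟨a, rfl⟩)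

theorem pow_II {p s : ℕ} [Fact p.Prime] [CharP k p] (hexp : ∀ a : A, a ^ p ^ s = 1)
    (r : MonoidAlgebra k A) (hr : r ∈ II k A) : r ^ p ^ s = 0 := by
  haveI : CharP (MonoidAlgebra k A) p := charP_of_injective_algebraMap
    (algebraMap k (MonoidAlgebra k A)).injective p
  haveI : ExpChar (MonoidAlgebra k A) p := ExpChar.prime Fact.out
  induction hr using Submodule.span_induction with
  | mem x hx =>
    obtain ⟨a, rfl⟩ := hx
    rw [dd, sub_pow_expChar_pow, MonoidAlgebra.single_pow, hexp, one_pow, one_pow]
    exact sub_self _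
  | zero => exact zero_pow (pow_ne_zero _ (Fact.out : p.Prime).ne_zero)
  | add x y _ _ hx hy => rw [add_pow_expChar_pow, hx, hy, add_zero]
  | smul c x _ hx => rw [smul_eq_mul, mul_pow, hx, mul_zero]

theorem II_le {p s : ℕ} [Fact p.Prime] [CharP k p] (hexp : ∀ a : A, a ^ p ^ s = 1) :
    II k A ≤ Ideal.jacobson ⊥ := by
  refine le_trans ?_ (Ideal.radical_le_jacobson)
  intro r hr
  exact ⟨p ^ s, by rw [pow_II hexp r hr]; exact Submodule.zero_mem _⟩

end aug

section maps

variable (k : Type*) [Field k] {A : Type*} [CommGroup A] [Fintype A]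
variable (P : Type*) [AddCommGroup P] [Module (MonoidAlgebra k A) P]

/-- `y ↦ ∑ (a - 1) y_a` -/
noncomputable def Dm : (A → P) →ₗ[MonoidAlgebra k A] P :=
  ∑ a : A, (LinearMap.lsmul (MonoidAlgebra k A) P (dd k a)) ∘ₗ LinearMap.proj a

theorem Dm_apply (y : A → P) : Dm k P y = ∑ a : A, dd k a • y a := by
  simp [Dm]

/-- relations `b (a - 1) = (a b - 1) - (b - 1)` -/
noncomputable def Rm : (A → A → P) →ₗ[MonoidAlgebra k A] (A → P) where
  toFun y := fun c => (∑ b : A, MonoidAlgebra.single b (1 : k) • y c b) -
    (∑ a : A, y a (a⁻¹ * c)) + ∑ a : A, y a c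
  map_add' y z := by
    ext c
    simp only [Pi.add_apply, smul_add, Finset.sum_add_distrib]
    abel
  map_smul' r y := by
    ext c
    simp only [Pi.smul_apply, RingHom.id_apply, smul_add, smul_sub, Finset.smul_sum,
      smul_comm r]

theorem Rm_apply (y : A → A → P) (c : A) : Rm k P y c =
    (∑ b : A, MonoidAlgebra.single b (1 : k) • y c b) - (∑ a : A, y a (a⁻¹ * c)) + ∑ a : A, y a c :=
  rfl

theorem Dm_Rm (y : A → A → P) : Dm k P (Rm k P y) = 0 := by
  rw [Dm_apply]
  simp only [Rm_apply, smul_add, smul_sub, Finset.sum_add_distrib, Finset.sum_sub_distrib,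
    Finset.smul_sum]
  have h2 : ∑ c : A, ∑ a : A, dd k c • y a (a⁻¹ * c) = ∑ a : A, ∑ b : A, dd k (a * b) • y a b := by
    rw [Finset.sum_comm]
    apply Finset.sum_congr rfl
    intro a _
    rw [← Equiv.sum_comp (Equiv.mulLeft a)]
    simp
  have h3 : ∑ c : A, ∑ a : A, dd k c • y a c = ∑ a : A, ∑ b : A, dd k b • y a b :=
    Finset.sum_comm
  rw [h2, h3, ← Finset.sum_sub_distrib, ← Finset.sum_add_distrib]
  apply Finset.sum_eq_zero
  intro a _
  rw [← Finset.sum_sub_distrib, ← Finset.sum_add_distrib]
  apply Finset.sum_eq_zero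
  intro b _
  rw [smul_smul, ← sub_smul, ← add_smul]
  have : dd k a * MonoidAlgebra.single b (1 : k) - dd k (a * b) + dd k b = 0 := by
    simp only [dd, sub_mul, MonoidAlgebra.single_mul_single, one_mul, mul_one]
    abel
  rw [this, zero_smul]

variable {P} {Q : Type*} [AddCommGroup Q] [Module (MonoidAlgebra k A) Q]

theorem Dm_map (φ : P →ₗ[MonoidAlgebra k A] Q) (y : A → P) :
    Dm k Q (fun a => φ (y a)) = φ (Dm k P y) := by
  rw [Dm_apply, Dm_apply, map_sum]
  simp only [map_smul]

theorem Rm_map (φ : P →ₗ[MonoidAlgebra k A] Q) (y : A → A → P) (c : A) :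
    Rm k Q (fun a b => φ (y a b)) c = φ (Rm k P y c) := by
  rw [Rm_apply, Rm_apply, map_add, map_sub, map_sum, map_sum, map_sum]
  simp only [map_smul]

end maps

section growth

variable {k : Type} [Field k] {A : Type} [CommGroup A] [Fintype A]
variable {N : Type} [AddCommGroup N] [Module k N] [Module (MonoidAlgebra k A) N]
  [IsScalarTower k (MonoidAlgebra k A) N] [FiniteDimensional k N]

/-- the augmentation ideal acts through the augmentation on coinvariants -/
theorem smul_sub_mem (r : MonoidAlgebra k A) (n : N) :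
    r • n - (aug k A r) • n ∈ II k A • (⊤ : Submodule (MonoidAlgebra k A) N) := by
  have h : r - algebraMap k (MonoidAlgebra k A) (aug k A r) ∈ II k A := by
    rw [mem_II, map_sub, AlgHom.commutes, sub_eq_zero]
    rfl
  have h2 : (r - algebraMap k (MonoidAlgebra k A) (aug k A r)) • n = r • n - (aug k A r) • n := by
    rw [sub_smul, algebraMap_smul]
  rw [← h2]
  exact Submodule.smul_mem_smul h Submodule.mem_top

theorem range_Dm : LinearMap.range (Dm k N) = II k A • (⊤ : Submodule (MonoidAlgebra k A) N) := by
  apply le_antisymm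
  · rintro _ ⟨y, rfl⟩
    rw [Dm_apply]
    apply Submodule.sum_mem
    intro a _
    exact Submodule.smul_mem_smul (Ideal.subset_span ⟨a, rfl⟩) Submodule.mem_top
  · rw [Submodule.smul_le]
    intro r hr n _
    induction hr using Submodule.span_induction generalizing n with
    | mem x hx =>
      classical
      obtain ⟨a, rfl⟩ := hx
      refine ⟨Pi.single a n, ?_⟩
      rw [Dm_apply, Finset.sum_eq_single a]
      · simp
      · intro b _ hb
        rw [Pi.single_eq_of_ne hb, smul_zero]
      · intro h
        exact absurd (Finset.mem_univ a) h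
    | zero => rw [zero_smul]; exact Submodule.zero_mem _
    | add x y _ _ hx hy =>
      rw [add_smul]
      exact Submodule.add_mem _ (hx n (by trivial)) (hy n (by trivial))
    | smul c x _ hx =>
      rw [smul_eq_mul, mul_smul]
      exact Submodule.smul_mem _ _ (hx n (by trivial))

end growth

end Pool.Agent.H92.MU
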