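import Mathlib

/-!
Nakayama's lemma for finite `p`-groups in characteristic `p`.
-/

set_option autoImplicit false
set_option linter.unusedSectionVars false
set_option linter.style.haveILetI false

namespace Pool.Agent.H92.MU

open Module

theorem exists_fixed {p : ℕ} [Fact p.Prime] {Q : Type} [Group Q] [Finite Q]
    (hQ : IsPGroup p Q) {M : Type} [AddCommGroup M] (hp : ∀ x : M, p • x = 0)
    (act : Q → (M →+ M)) (h1 : ∀ x, act 1 x = x) (hmul : ∀ a b x, act (a * b) x = act a (act b x))
    (f : M) (hf : f ≠ 0) :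
    ∃ b : M, b ≠ 0 ∧ b ∈ AddSubgroup.closure (Set.range fun q => act q f) ∧
      ∀ q, act q b = b := by
  classical
  letI : Module (ZMod p) M := AddCommGroup.zmodModule (n := p) hp
  let L : Submodule (ZMod p) M := Submodule.span (ZMod p) (Set.range fun q : Q => act q f)
  haveI hLf : Module.Finite (ZMod p) L :=
    Module.Finite.span_of_finite (ZMod p) (Set.finite_range fun q : Q => act q f)
  haveI : Finite L := Module.finite_of_finite (ZMod p)
  have hLst : ∀ (q : Q) (g : M), g ∈ L → act q g ∈ L := by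
    intro q g hg
    induction hg using Submodule.span_induction with
    | mem x hx =>
      obtain ⟨r, rfl⟩ := hx
      refine Submodule.subset_span ⟨q * r, ?_⟩
      show act (q * r) f = act q (act r f)
      rw [hmul]
    | zero => rw [map_zero]; exact Submodule.zero_mem _
    | add x y _ _ hx hy => rw [map_add]; exact Submodule.add_mem _ hx hy
    | smul c x _ hx =>
      obtain ⟨n, rfl⟩ : ∃ n : ℕ, (n : ZMod p) = c := ⟨c.val, by simp⟩
      rw [Nat.cast_smul_eq_nsmul, map_nsmul, ← Nat.cast_smul_eq_nsmul (ZMod p)]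
      exact Submodule.smul_mem _ _ hx
  have hLc : ∀ g ∈ L, g ∈ AddSubgroup.closure (Set.range fun q => act q f) := by
    intro g hg
    induction hg using Submodule.span_induction with
    | mem x hx => exact AddSubgroup.subset_closure hx
    | zero => exact zero_mem _
    | add x y _ _ hx hy => exact add_mem hx hy
    | smul c x _ hx =>
      obtain ⟨n, rfl⟩ : ∃ n : ℕ, (n : ZMod p) = c := ⟨c.val, by simp⟩
      rw [Nat.cast_smul_eq_nsmul]
      exact nsmul_mem hx n
  letI : MulAction Q L :=
    { smul := fun q g => ⟨act q g.1, hLst _ _ g.2⟩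
      one_smul := fun g => Subtype.ext (h1 _)
      mul_smul := fun a b g => Subtype.ext (hmul _ _ _) }
  have hLne : Nontrivial L := by
    refine ⟨⟨⟨f, Submodule.subset_span ⟨1, h1 f⟩⟩, 0, ?_⟩⟩
    intro h
    exact hf (congrArg Subtype.val h)
  have hcard : p ∣ Nat.card L := by
    haveI := Fintype.ofFinite L
    rw [Nat.card_eq_fintype_card, Module.card_eq_pow_finrank (K := ZMod p) (V := L), ZMod.card]
    exact dvd_pow_self p (Module.finrank_pos (R := ZMod p) (M := L)).ne'
  have hfix : (0 : L) ∈ MulAction.fixedPoints Q L := by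
    intro q
    apply Subtype.ext
    exact map_zero (act q)
  obtain ⟨b, hb, hb0⟩ := hQ.exists_fixed_point_of_prime_dvd_card_of_fixed_point L hcard hfix
  refine ⟨b.1, ?_, hLc _ b.2, fun q => congrArg Subtype.val (hb q)⟩
  intro h
  exact hb0 (Subtype.ext h.symm)

theorem nak {p : ℕ} [Fact p.Prime] {k : Type} [Field k] [CharP k p] {Q : Type} [Group Q] [Finite Q]
    (hQ : IsPGroup p Q) {N : Type} [AddCommGroup N] [Module k N]
    (τ : Q →* Module.End k N) (S : Submodule k N) (hS : ∀ q, ∀ x ∈ S, τ q x ∈ S)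
    (hgen : S ⊔ Submodule.span k {x | ∃ (q : Q) (n : N), x = τ q n - n} = ⊤) : S = ⊤ := by
  classical
  by_contra hne
  obtain ⟨f, hf0, hfS⟩ := Submodule.exists_le_ker_of_lt_top S (lt_top_iff_ne_top.2 hne)
  obtain ⟨b, hb0, hbc, hb⟩ := exists_fixed hQ (M := N →ₗ[k] k) (fun g => by
    ext x
    rw [LinearMap.smul_apply, nsmul_eq_mul, CharP.cast_eq_zero, zero_mul]
    rfl) (fun q => { toFun := fun g => g ∘ₗ τ q⁻¹
                     map_zero' := LinearMap.zero_comp _
                     map_add' := fun g h => LinearMap.add_comp _ _ _ })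
    (fun g => by
      show g ∘ₗ τ (1 : Q)⁻¹ = g
      rw [inv_one, map_one]
      rfl)
    (fun a b g => by
      show g ∘ₗ τ (a * b)⁻¹ = (g ∘ₗ τ b⁻¹) ∘ₗ τ a⁻¹
      rw [mul_inv_rev, map_mul]
      rfl) f hf0
  have hLS : ∀ x ∈ S, b x = 0 := by
    have key : ∀ g : N →ₗ[k] k, g ∈ AddSubgroup.closure (Set.range fun q : Q => f ∘ₗ τ q⁻¹) →
        ∀ x ∈ S, g x = 0 := by
      intro g hg
      induction hg using AddSubgroup.closure_induction with
      | mem x hx =>
        obtain ⟨r, rfl⟩ := hx
        intro x hx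
        exact hfS (hS r⁻¹ x hx)
      | zero => intro x _; rfl
      | add x y _ _ hx hy =>
        intro z hz
        rw [LinearMap.add_apply, hx z hz, hy z hz, add_zero]
      | neg x _ hx =>
        intro z hz
        rw [LinearMap.neg_apply, hx z hz, neg_zero]
    exact key b hbc
  apply hb0
  have hker : S ⊔ Submodule.span k {x | ∃ (q : Q) (n : N), x = τ q n - n} ≤
      LinearMap.ker b := by
    rw [sup_le_iff]
    constructor
    · intro x hx
      exact hLS x hx
    · rw [Submodule.span_le]
      rintro _ ⟨q, n, rfl⟩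
      have h2 : b ∘ₗ τ q⁻¹⁻¹ = b := hb q⁻¹
      rw [inv_inv] at h2
      have h3 := LinearMap.congr_fun h2 n
      show b (τ q n - n) = 0
      rw [map_sub, sub_eq_zero]
      exact h3
  rw [hgen] at hker
  ext x
  exact hker trivial

end Pool.Agent.H92.MU
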