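import Pool.Agent.H92.MU.G3

/-!
Permutation modules `F[X] ⊗ W` and morphisms between them.
-/

set_option autoImplicit false
set_option linter.unusedSectionVars false
set_option linter.style.haveILetI false

namespace Pool.Agent.H92.MU

open CategoryTheory

section perm

variable {F G W : Type} [Field F] [Group G] [AddCommGroup W] [Module F W]

/-- `F[X] ⊗ W` for a `G`-set `X`: finitely supported functions `X → W`, with
`g (x ⊗ w) = g x ⊗ g w`. -/
noncomputable def permRep (X : Type) [MulAction G X] (ρ : Representation F G W) :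
    Representation F G (X →₀ W) where
  toFun g := Finsupp.lmapDomain W F (fun x : X => g • x) ∘ₗ Finsupp.mapRange.linearMap (ρ g)
  map_one' := by
    ext x w
    simp
  map_mul' g h := by
    ext x w
    simp [mul_smul]

@[simp] theorem permRep_single {X : Type} [MulAction G X] (ρ : Representation F G W) (g : G)
    (x : X) (w : W) :
    permRep X ρ g (Finsupp.single x w) = Finsupp.single (g • x) (ρ g w) := by
  simp [permRep]

/-- `I × X` with `G` acting on the second factor only. -/
@[ext] structure Ix (I X : Type) where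
  /-- index -/
  fst : I
  /-- point -/
  snd : X

instance instIx (I X : Type) [MulAction G X] : MulAction G (Ix I X) where
  smul g z := ⟨z.fst, g • z.snd⟩
  one_smul z := by
    show (⟨z.fst, (1 : G) • z.snd⟩ : Ix I X) = z
    rw [one_smul]
  mul_smul g h z := by
    show (⟨z.fst, (g * h) • z.snd⟩ : Ix I X) = ⟨z.fst, g • h • z.snd⟩
    rw [mul_smul]

instance (I X : Type) [Finite I] [Finite X] : Finite (Ix I X) :=
  Finite.of_injective (fun z : Ix I X => (z.fst, z.snd)) fun a b h => by
    obtain ⟨h1, h2⟩ := Prod.ext_iff.1 h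
    exact Ix.ext h1 h2

theorem Ix_smul {I X : Type} [MulAction G X] (g : G) (i : I) (x : X) :
    g • (⟨i, x⟩ : Ix I X) = ⟨i, g • x⟩ := rfl

/-- the object -/
noncomputable abbrev PO (X : Type) [MulAction G X] (ρ : Representation F G W) : Rep.{0} F G :=
  Rep.of (permRep X ρ)

variable (ρ : Representation F G W)

/-- push-forward along an equivariant map -/
noncomputable def push {X Y : Type} [MulAction G X] [MulAction G Y] (f : X → Y)
    (hf : ∀ (g : G) x, f (g • x) = g • f x) : PO X ρ ⟶ PO Y ρ :=
  Rep.ofHom ⟨Finsupp.lmapDomain W F f, fun g => by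
    ext x w
    simp [hf]⟩

@[simp] theorem push_single {X Y : Type} [MulAction G X] [MulAction G Y] (f : X → Y)
    (hf : ∀ (g : G) x, f (g • x) = g • f x) (x : X) (w : W) :
    (push ρ f hf).hom (Finsupp.single x w) = Finsupp.single (f x) w := by
  show Finsupp.lmapDomain W F f (Finsupp.single x w) = _
  simp

theorem push_apply {X Y : Type} [MulAction G X] [MulAction G Y] (f : X → Y)
    (hf : ∀ (g : G) x, f (g • x) = g • f x) (z : X →₀ W) :
    (push ρ f hf).hom z = Finsupp.mapDomain f z := rfl

theorem hom_ext' {X : Type} [MulAction G X] {B : Rep.{0} F G} (f g : PO X ρ ⟶ B)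
    (h : ∀ x w, f.hom (Finsupp.single x w) = g.hom (Finsupp.single x w)) : f = g := by
  apply Rep.hom_ext
  apply Representation.IntertwiningMap.ext
  ext x w
  exact h x w

/-- inclusion of a component -/
noncomputable def ii {I X : Type} [MulAction G X] (i : I) : PO X ρ ⟶ PO (Ix I X) ρ :=
  push ρ (fun x => (⟨i, x⟩ : Ix I X)) fun _ _ => rfl

theorem ii_single {I X : Type} [MulAction G X] (i : I) (x : X) (w : W) :
    (ii ρ i).hom (Finsupp.single x w) = Finsupp.single (⟨i, x⟩ : Ix I X) w :=
  push_single _ _ _ _ _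

open Classical in
/-- projection to a component, linear map -/
noncomputable def ppl {F W : Type} [Field F] [AddCommGroup W] [Module F W] {I X : Type} (i : I) :
    (Ix I X →₀ W) →ₗ[F] (X →₀ W) :=
  Finsupp.lsum F (fun z : Ix I X => if z.fst = i then Finsupp.lsingle z.snd else 0)

theorem ppl_same {I X : Type} (i : I) (x : X) (w : W) :
    ppl (F := F) i (Finsupp.single (⟨i, x⟩ : Ix I X) w) = Finsupp.single x w := by
  rw [ppl, Finsupp.lsum_single, if_pos rfl]
  rfl

theorem ppl_ne {I X : Type} (i j : I) (h : j ≠ i) (x : X) (w : W) :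
    ppl (F := F) i (Finsupp.single (⟨j, x⟩ : Ix I X) w) = 0 := by
  rw [ppl, Finsupp.lsum_single, if_neg h]
  rfl

/-- projection to a component -/
noncomputable def pp {I X : Type} [MulAction G X] (i : I) : PO (Ix I X) ρ ⟶ PO X ρ :=
  Rep.ofHom ⟨ppl i, fun g => by
    apply Finsupp.lhom_ext
    rintro ⟨j, x⟩ w
    show ppl i (permRep (Ix I X) ρ g (Finsupp.single ⟨j, x⟩ w)) =
      permRep X ρ g (ppl i (Finsupp.single ⟨j, x⟩ w))
    rw [permRep_single, Ix_smul]
    by_cases h : j = i
    · subst h
      rw [ppl_same, ppl_same, permRep_single]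
    · rw [ppl_ne _ _ h, ppl_ne _ _ h, map_zero]⟩

theorem pp_same {I X : Type} [MulAction G X] (i : I) (x : X) (w : W) :
    (pp ρ i).hom (Finsupp.single (⟨i, x⟩ : Ix I X) w) = Finsupp.single x w := ppl_same _ _ _

theorem pp_ne {I X : Type} [MulAction G X] (i j : I) (h : j ≠ i) (x : X) (w : W) :
    (pp ρ i).hom (Finsupp.single (⟨j, x⟩ : Ix I X) w) = 0 := ppl_ne _ _ h _ _

theorem ii_pp_same {I X : Type} [MulAction G X] (i : I) :
    ii (X := X) ρ i ≫ pp ρ i = 𝟙 _ := by
  apply hom_ext'
  intro x w
  show (pp ρ i).hom ((ii ρ i).hom (Finsupp.single x w)) = Finsupp.single x w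
  rw [ii_single, pp_same]

theorem ii_pp_ne {I X : Type} [MulAction G X] (i j : I) (h : i ≠ j) :
    ii (X := X) ρ i ≫ pp ρ j = 0 := by
  apply hom_ext'
  intro x w
  show (pp ρ j).hom ((ii ρ i).hom (Finsupp.single x w)) = 0
  rw [ii_single, pp_ne _ _ _ h]

theorem sum_pp_ii {I X : Type} [Fintype I] [MulAction G X] :
    ∑ i : I, pp (X := X) ρ i ≫ ii ρ i = 𝟙 (PO (Ix I X) ρ) := by
  classical
  apply hom_ext'
  rintro ⟨j, x⟩ w
  rw [Rep.sum_hom]
  have : ∀ i : I, (pp (X := X) ρ i ≫ ii ρ i).hom (Finsupp.single (⟨j, x⟩ : Ix I X) w) =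
      if j = i then Finsupp.single (⟨j, x⟩ : Ix I X) w else 0 := by
    intro i
    show (ii ρ i).hom ((pp ρ i).hom (Finsupp.single (⟨j, x⟩ : Ix I X) w)) = _
    by_cases h : j = i
    · subst h
      rw [if_pos rfl, pp_same, ii_single]
    · rw [if_neg h, pp_ne _ _ _ h, map_zero]
  rw [Representation.IntertwiningMap.sum_apply]
  rw [Finset.sum_congr rfl fun i _ => this i]
  simp

end perm

end Pool.Agent.H92.MU
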