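import Pool.Agent.H92.MU.Ex

/-!
Theories: a right exact functor `H2` on finite representations with connecting maps from `H1`.
-/

set_option autoImplicit false
set_option linter.unusedSectionVars false
set_option linter.style.haveILetI false

namespace Pool.Agent.H92.MU

open CategoryTheory Module

/-- `A` is finite dimensional and an open subgroup acts trivially on `A`. -/
def IsFin {F G : Type} [Field F] [Group G] [TopologicalSpace G] (A : Rep.{0} F G) : Prop :=
  Module.Finite F A ∧ ∃ N : Subgroup G, IsOpen (N : Set G) ∧ ∀ g ∈ N, ∀ x : A, A.ρ g x = x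

/-- Cohomology in degrees one and two. -/
structure Theory (F k G : Type) [Field F] [Field k] [Group G] [TopologicalSpace G] where
  /-- first cohomology -/
  H1 : Rep.{0} F G → ModuleCat.{0} k
  /-- second cohomology -/
  H2 : Rep.{0} F G ⥤ ModuleCat.{0} k
  additive : H2.Additive
  finite1 : ∀ A, IsFin A → Module.Finite k (H1 A)
  finite2 : ∀ A, IsFin A → Module.Finite k (H2.obj A)
  exact : ∀ {A B C : Rep.{0} F G} (f : A ⟶ B) (g : B ⟶ C), IsFin A → IsFin B → IsFin C →
    Function.Injective f.hom → Function.Exact f.hom g.hom → Function.Surjective g.hom →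
    ∃ δ : H1 C →ₗ[k] H2.obj A, Function.Exact δ (H2.map f).hom ∧
      Function.Exact (H2.map f).hom (H2.map g).hom ∧ Function.Surjective (H2.map g).hom

variable {F k G : Type} [Field F] [Field k] [Group G] [TopologicalSpace G]

namespace Theory

variable (T : Theory F k G)

/-- the linear map induced by a morphism -/
noncomputable def mp {A B : Rep.{0} F G} (f : A ⟶ B) : T.H2.obj A →ₗ[k] T.H2.obj B :=
  (T.H2.map f).hom

theorem mp_id (A : Rep.{0} F G) : T.mp (𝟙 A) = LinearMap.id := by
  rw [mp, T.H2.map_id]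
  rfl

theorem mp_comp {A B C : Rep.{0} F G} (f : A ⟶ B) (g : B ⟶ C) :
    T.mp (f ≫ g) = T.mp g ∘ₗ T.mp f := by
  rw [mp, T.H2.map_comp]
  rfl

theorem mp_comp_apply {A B C : Rep.{0} F G} (f : A ⟶ B) (g : B ⟶ C) (x : T.H2.obj A) :
    T.mp (f ≫ g) x = T.mp g (T.mp f x) := by
  rw [mp_comp]
  rfl

theorem mp_add {A B : Rep.{0} F G} (f g : A ⟶ B) : T.mp (f + g) = T.mp f + T.mp g := by
  haveI := T.additive
  rw [mp, T.H2.map_add]
  rfl

theorem mp_sub {A B : Rep.{0} F G} (f g : A ⟶ B) : T.mp (f - g) = T.mp f - T.mp g := by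
  haveI := T.additive
  rw [mp, T.H2.map_sub]
  rfl

theorem mp_zero {A B : Rep.{0} F G} : T.mp (0 : A ⟶ B) = 0 := by
  haveI := T.additive
  rw [mp, T.H2.map_zero]
  rfl

theorem mp_sum {A B : Rep.{0} F G} {ι : Type} (s : Finset ι) (f : ι → (A ⟶ B)) :
    T.mp (∑ i ∈ s, f i) = ∑ i ∈ s, T.mp (f i) := by
  classical
  induction s using Finset.induction with
  | empty => simpa using T.mp_zero
  | insert a s ha ih => rw [Finset.sum_insert ha, Finset.sum_insert ha, mp_add, ih]

/-- the kernel of a morphism -/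
noncomputable def kob {B C : Rep.{0} F G} (g : B ⟶ C) : Rep.{0} F G :=
  Rep.subrepresentation B (LinearMap.ker g.hom.toLinearMap) (fun a x hx => by
    have hx' : g.hom x = 0 := hx
    show g.hom (B.ρ a x) = 0
    rw [Rep.hom_comm_apply, hx', map_zero])

/-- the inclusion of the kernel -/
noncomputable def kin {B C : Rep.{0} F G} (g : B ⟶ C) : kob g ⟶ B := Rep.subtype _ _ _

theorem kin_inj {B C : Rep.{0} F G} (g : B ⟶ C) : Function.Injective (kin g).hom :=
  Subtype.val_injective

theorem kin_exact {B C : Rep.{0} F G} (g : B ⟶ C) : Function.Exact (kin g).hom g.hom := by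
  intro x
  constructor
  · intro h
    exact ⟨⟨x, h⟩, rfl⟩
  · rintro ⟨y, rfl⟩
    exact y.2

theorem isFin_kob {B C : Rep.{0} F G} (g : B ⟶ C) (hB : IsFin B) : IsFin (kob g) := by
  obtain ⟨h1, N, hN, h2⟩ := hB
  refine ⟨?_, N, hN, ?_⟩
  · haveI := h1
    show Module.Finite F (LinearMap.ker g.hom.toLinearMap)
    exact inferInstance
  · intro a ha x
    exact Subtype.ext (h2 a ha x.1)

/-- the lift of a morphism to the kernel -/
noncomputable def klift {A B C : Rep.{0} F G} (f : A ⟶ B) (g : B ⟶ C) (h : f ≫ g = 0) :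
    A ⟶ kob g :=
  Rep.ofHom ⟨LinearMap.codRestrict _ f.hom.toLinearMap (fun x => by
    have := congrArg (fun u => u.hom x) h
    exact this), fun a => by
      ext x
      exact Rep.hom_comm_apply f a x⟩

theorem klift_kin {A B C : Rep.{0} F G} (f : A ⟶ B) (g : B ⟶ C) (h : f ≫ g = 0) :
    klift f g h ≫ kin g = f := rfl

theorem klift_apply {A B C : Rep.{0} F G} (f : A ⟶ B) (g : B ⟶ C) (h : f ≫ g = 0) (x : A) :
    (kin g).hom ((klift f g h).hom x) = f.hom x := rfl

/-- right exactness -/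
theorem rexact {A B C : Rep.{0} F G} (f : A ⟶ B) (g : B ⟶ C) (hA : IsFin A) (hB : IsFin B)
    (hC : IsFin C) (hfg : f ≫ g = 0) (he : ∀ x, g.hom x = 0 → ∃ y, f.hom y = x)
    (hg : Function.Surjective g.hom) :
    Function.Exact (T.mp f) (T.mp g) ∧ Function.Surjective (T.mp g) := by
  have hK := isFin_kob g hB
  obtain ⟨δ, -, h1, h2⟩ := T.exact (kin g) g hK hB hC (kin_inj g) (kin_exact g) hg
  refine ⟨?_, h2⟩
  have hls : Function.Surjective (klift f g hfg).hom := by
    intro x
    obtain ⟨y, hy⟩ := he x.1 x.2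
    exact ⟨y, Subtype.ext hy⟩
  obtain ⟨-, -, -, h3⟩ := T.exact (kin (klift f g hfg)) (klift f g hfg) (isFin_kob _ hA) hA hK
    (kin_inj _) (kin_exact _) hls
  have h4 : T.mp f = T.mp (kin g) ∘ₗ T.mp (klift f g hfg) := by
    rw [← mp_comp, klift_kin]
  intro x
  rw [h4]
  constructor
  · intro hx
    obtain ⟨y, hy⟩ := (h1 x).1 hx
    obtain ⟨z, hz⟩ := h3 y
    refine ⟨z, ?_⟩
    show T.mp (kin g) (T.mp (klift f g hfg) z) = x
    have : T.mp (klift f g hfg) z = y := hz
    rw [this]
    exact hy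
  · rintro ⟨z, rfl⟩
    exact (h1 _).2 ⟨T.mp (klift f g hfg) z, rfl⟩

/-- the kernel of `H2(f)` for `E → A → B → C → 0` exact -/
theorem ker_le {E A B C : Rep.{0} F G} (r : E ⟶ A) (f : A ⟶ B) (g : B ⟶ C) (hE : IsFin E)
    (hA : IsFin A) (hB : IsFin B) (hC : IsFin C) (hrf : r ≫ f = 0) (hfg : f ≫ g = 0)
    (he' : ∀ x, f.hom x = 0 → ∃ y, r.hom y = x)
    (he : ∀ x, g.hom x = 0 → ∃ y, f.hom y = x) (hg : Function.Surjective g.hom) :
    finrank k (LinearMap.ker (T.mp f)) ≤ finrank k (T.H1 C) + finrank k (LinearMap.range (T.mp r)) := by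
  haveI := T.finite1 C hC
  haveI := T.finite2 A hA
  haveI := T.finite2 B hB
  haveI := T.finite2 E hE
  have hK := isFin_kob g hB
  haveI := T.finite2 _ hK
  obtain ⟨δ, h0, h1, h2⟩ := T.exact (kin g) g hK hB hC (kin_inj g) (kin_exact g) hg
  have hls : Function.Surjective (klift f g hfg).hom := by
    intro x
    obtain ⟨y, hy⟩ := he x.1 x.2
    exact ⟨y, Subtype.ext hy⟩
  have hr0 : r ≫ klift f g hfg = 0 := by
    apply Rep.hom_ext
    apply Representation.IntertwiningMap.ext
    apply LinearMap.ext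
    intro x
    apply Subtype.ext
    have := congrArg (fun u => u.hom x) hrf
    exact this
  obtain ⟨h3, h4⟩ := T.rexact r (klift f g hfg) hE hA hK hr0 (fun x hx => he' x (by
    have := congrArg (kin g).hom hx
    rw [map_zero] at this
    exact this)) hls
  have h5 : T.mp f = T.mp (kin g) ∘ₗ T.mp (klift f g hfg) := by
    rw [← mp_comp, klift_kin]
  -- the map from the kernel of `T.mp f` to the kernel of `T.mp (kin g)`
  let L := LinearMap.ker (T.mp f)
  let φ : L →ₗ[k] T.H2.obj (kob g) := (T.mp (klift f g hfg)).domRestrict L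
  have e := LinearMap.finrank_range_add_finrank_ker φ
  have e1 : finrank k (LinearMap.range φ) ≤ finrank k (T.H1 C) := by
    have : LinearMap.range φ ≤ LinearMap.range δ := by
      rintro _ ⟨⟨x, hx⟩, rfl⟩
      rw [LinearMap.mem_ker, h5] at hx
      obtain ⟨y, hy⟩ := (h0 _).1 hx
      exact ⟨y, hy⟩
    exact le_trans (Submodule.finrank_mono this) (LinearMap.finrank_range_le δ)
  have e2 : finrank k (LinearMap.ker φ) ≤ finrank k (LinearMap.range (T.mp r)) := by
    have : ∀ x : LinearMap.ker φ, (x.1 : T.H2.obj A) ∈ LinearMap.range (T.mp r) := by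
      rintro ⟨⟨x, hx⟩, hx2⟩
      obtain ⟨y, hy⟩ := (h3 x).1 hx2
      exact ⟨y, hy⟩
    apply LinearMap.finrank_le_finrank_of_injective
      (f := LinearMap.codRestrict (LinearMap.range (T.mp r))
        (L.subtype ∘ₗ (LinearMap.ker φ).subtype) this)
    intro x y hxy
    have h6 : (((LinearMap.codRestrict (LinearMap.range (T.mp r))
        (L.subtype ∘ₗ (LinearMap.ker φ).subtype) this) x : T.H2.obj A)) =
        ((LinearMap.codRestrict (LinearMap.range (T.mp r))
        (L.subtype ∘ₗ (LinearMap.ker φ).subtype) this) y : T.H2.obj A) := by rw [hxy]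
    exact Subtype.ext (Subtype.ext h6)
  have e3 : finrank k (LinearMap.ker (T.mp f)) = finrank k L := rfl
  omega

end Theory

end Pool.Agent.H92.MU
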