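import Pool.Agent.H92.MU.Gr
import Pool.Agent.H92.MU.Nak

/-!
Upper bound for a free action of a finite `p`-group.
-/

set_option autoImplicit false
set_option linter.unusedSectionVars false
set_option linter.style.haveILetI false

namespace Pool.Agent.H92.MU

open CategoryTheory Module

variable {F k G : Type} [Field F] [Field k] [Group G] [TopologicalSpace G]
variable {W : Type} [AddCommGroup W] [Module F W]

namespace Theory

variable (T : Theory F k G) (ρ : Representation F G W)

variable {X Y Q : Type} [MulAction G X] [MulAction G Y] [Group Q] [Fintype Q] [MulAction Q X]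
  [SMulCommClass G Q X]

theorem upper_free {p : ℕ} [Fact p.Prime] [CharP k p] (hQp : IsPGroup p Q)
    (π : X → Y) (hπ : ∀ (g : G) x, π (g • x) = g • π x) (hs : Function.Surjective π)
    (ho : ∀ x y, π x = π y → ∃ q : Q, y = q • x) (hQ : ∀ (q : Q) x, π (q • x) = π x)
    (f0 : IsFin (PO X ρ)) (f1 : IsFin (PO (Ix Q X) ρ)) (fY : IsFin (PO Y ρ)) :
    finrank k (T.H2.obj (PO X ρ)) ≤ Fintype.card Q * finrank k (T.H2.obj (PO Y ρ)) := by
  classical
  haveI := T.finite2 _ f0
  haveI := T.finite2 _ fY
  obtain ⟨hex, hsurj⟩ := T.rexact (DD (Q := Q) ρ) (push ρ π hπ) f1 f0 fY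
    (push_DD ρ π hπ hQ) (exists_of_push ρ π hπ hs ho) (push_surj ρ π hπ hs)
  let e := Module.finBasis k (T.H2.obj (PO Y ρ))
  have hn : ∀ i, ∃ n, T.mp (push ρ π hπ) n = e i := fun i => hsurj (e i)
  choose n hn using hn
  let v : Q × Fin (finrank k (T.H2.obj (PO Y ρ))) → T.H2.obj (PO X ρ) :=
    fun u => T.actQ ρ u.1 (n u.2)
  let S : Submodule k (T.H2.obj (PO X ρ)) := Submodule.span k (Set.range v)
  have hcard : finrank k S ≤ Fintype.card Q * finrank k (T.H2.obj (PO Y ρ)) := by
    have := finrank_range_le_card (R := k) v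
    rw [Fintype.card_prod, Fintype.card_fin] at this
    exact this
  have hSt : ∀ q : Q, ∀ x ∈ S, T.actQ ρ q x ∈ S := by
    intro q x hx
    induction hx using Submodule.span_induction with
    | mem x hx =>
      obtain ⟨⟨r, i⟩, rfl⟩ := hx
      refine Submodule.subset_span ⟨(q * r, i), ?_⟩
      show T.actQ ρ (q * r) (n i) = T.actQ ρ q (T.actQ ρ r (n i))
      rw [map_mul]
      rfl
    | zero => rw [map_zero]; exact Submodule.zero_mem _
    | add x y _ _ hx hy => rw [map_add]; exact Submodule.add_mem _ hx hy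
    | smul c x _ hx => rw [map_smul]; exact Submodule.smul_mem _ _ hx
  have hgen : S ⊔ Submodule.span k {x | ∃ (q : Q) (m : T.H2.obj (PO X ρ)),
      x = T.actQ ρ q m - m} = ⊤ := by
    rw [eq_top_iff]
    intro x _
    have h1 := e.sum_repr (T.mp (push ρ π hπ) x)
    have h2 : T.mp (push ρ π hπ) (x - ∑ i, e.repr (T.mp (push ρ π hπ) x) i • n i) = 0 := by
      rw [map_sub, map_sum, sub_eq_zero]
      simp only [map_smul, hn]
      exact h1.symm
    obtain ⟨y, hy⟩ := (hex _).1 h2
    have h3 : x = (∑ i, e.repr (T.mp (push ρ π hπ) x) i • n i) + T.mp (DD (Q := Q) ρ) y := by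
      rw [hy]
      abel
    rw [h3]
    apply Submodule.add_mem_sup
    · apply Submodule.sum_mem
      intro i _
      apply Submodule.smul_mem
      apply Submodule.subset_span
      refine ⟨(1, i), ?_⟩
      show T.actQ ρ 1 (n i) = n i
      rw [map_one]
      rfl
    · rw [← T.as_pp ρ y, as_apply, map_sum]
      apply Submodule.sum_mem
      intro a _
      apply Submodule.subset_span
      refine ⟨a, T.mp (pp ρ a) y, ?_⟩
      rw [← mp_comp_apply, ii_DD, mp_sub, mp_id]
      rfl
  have htop := nak hQp (T.actQ ρ) S hSt hgen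
  have : finrank k (T.H2.obj (PO X ρ)) = finrank k S := by
    rw [htop, finrank_top]
  rw [this]
  exact hcard

end Theory

end Pool.Agent.H92.MU
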